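import Pool.Agent.Helper3.AT.Prime1

/-!
Project AT (MP_b8862a_ag), block AT-P, second part: no large prime factor.
-/

set_option linter.unusedSectionVars false

open scoped RealInnerProductSpace
open Module PF TF PW

namespace AT

variable {E : Type*} [NormedAddCommGroup E] [InnerProductSpace ℝ E] {Φ X : Finset E}

theorem span_Psi3 (h : NRS Φ) {x : E} (hx : x ∈ Submodule.span ℝ (Φ : Set E)) :
    x ∈ Submodule.span ℝ (Psi Φ : Set E) := by
  have h1 : Submodule.span ℝ (Φ : Set E) ≤ Submodule.span ℝ (Psi Φ : Set E) := by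
    rw [Submodule.span_le]
    intro b hb
    exact closure_span3 (h.mem_closure_Psi hb)
  exact h1 hx

theorem zero_of_orth3 {Ψ : Finset E} {z : E} (hz : z ∈ Submodule.span ℝ (Ψ : Set E)) (h : ∀ d ∈ Ψ, ⟪z, d⟫ = (0 : ℝ)) :
    z = 0 := by
  have h3 : ∀ y ∈ Submodule.span ℝ (Ψ : Set E), ⟪z, y⟫ = (0 : ℝ) := by
    intro y hy
    induction hy using Submodule.span_induction with
    | mem x hx => exact h x hx
    | zero => exact inner_zero_right _
    | add x y _ _ hx hy => rw [inner_add_right, hx, hy, add_zero]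
    | smul r x _ hx => rw [inner_smul_right, hx, mul_zero]
  exact inner_self_eq_zero.1 (h3 z hz)

/-- the weights of minimal norm -/
theorem minU3 (h : NRS Φ) (hX : Sat' Φ X) (h0 : (0 : E) ∉ X) : MnU (Psi Φ) (Mm X) := by
  have S := h.SL2
  have hsub : ∀ x ∈ X, ∀ g ∈ Psi Φ, (1 : ℝ) ≤ ⟪x, g⟫ → x - g ∈ X := by
    intro x hx g hg h1
    have h2 := hX.str g (mem_Psi2.1 hg).1 x hx 1 (by rw [co_Psi2 hg x, Nat.cast_one]; exact h1)
    rwa [Nat.cast_one, one_smul] at h2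
  have hle : ∀ x ∈ Mm X, ∀ g ∈ Psi Φ, ⟪x, g⟫ < (2 : ℝ) := by
    intro x hx g hg
    by_contra hcon
    push Not at hcon
    have h1 := hsub x (mem_Mm.1 hx).1 g hg (by linarith)
    have h2 := (mem_Mm.1 hx).2 _ h1
    rw [inner_sub_left, inner_sub_right, inner_sub_right, S.norm g hg, real_inner_comm x g] at h2
    linarith
  refine ⟨?_, ?_, ?_⟩
  · intro x hx g hg
    obtain ⟨k, hk⟩ := hX.int g (mem_Psi2.1 hg).1 x (mem_Mm.1 hx).1
    rw [co_Psi2 hg x] at hk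
    have h1 := hle x hx g hg
    have h2 := hle x hx (-g) (S.neg g hg)
    rw [inner_neg_right] at h2
    rw [hk] at h1 h2 ⊢
    have h3 : k < 2 := by exact_mod_cast h1
    have h4 : -k < 2 := by exact_mod_cast h2
    have h5 : k = 0 ∨ k = 1 ∨ k = -1 := by omega
    rcases h5 with h5 | h5 | h5
    · left; rw [h5, Int.cast_zero]
    · right; left; rw [h5, Int.cast_one]
    · right; right; rw [h5]; norm_num
  · intro x hx g hg h1
    refine mem_Mm.2 ⟨hsub x (mem_Mm.1 hx).1 g hg h1.ge, fun y hy => ?_⟩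
    have h2 := (mem_Mm.1 hx).2 y hy
    rw [inner_sub_left, inner_sub_right, inner_sub_right, S.norm g hg, real_inner_comm x g, h1]
    linarith
  · intro x hx
    by_contra hcon
    push Not at hcon
    have hxX := (mem_Mm.1 hx).1
    exact h0 (zero_of_orth3 (span_Psi3 h (hX.span x hxX)) hcon ▸ hxX)

section mn

variable {Ψ M : Finset E} (S : PFc.SL Ψ) (N : MnU Ψ M) {ν : E} (hν : ν ∈ M)
include S N hν

theorem sub_sum3 {O : Finset E} (hO : PFc.OrthIn Ψ ν O) : ν - ∑ a ∈ O, a ∈ M := by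
  classical
  induction O using Finset.induction_on with
  | empty => rw [Finset.sum_empty, sub_zero]; exact hν
  | insert a O ha ih =>
    have h1 : PFc.OrthIn Ψ ν O :=
      ⟨fun b hb => hO.1 b (Finset.mem_insert_of_mem hb), fun b hb c hc => hO.2 b (Finset.mem_insert_of_mem hb) c
        (Finset.mem_insert_of_mem hc)⟩
    have h2 := N.refl _ (ih h1) a (hO.1 a (Finset.mem_insert_self a O)).1 (by
      rw [inner_sub_left, (hO.1 a (Finset.mem_insert_self a O)).2, sum_inner, Finset.sum_eq_zero, sub_zero]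
      intro b hb
      exact hO.2 b (Finset.mem_insert_of_mem hb) a (Finset.mem_insert_self a O) (fun h => ha (h ▸ hb)))
    rw [Finset.sum_insert ha]
    have h3 : ν - (a + ∑ x ∈ O, x) = ν - ∑ a ∈ O, a - a := by abel
    rw [h3]
    exact h2

/-- no two short roots have inner product one -/
theorem case_zero3 (hsp : ν ∈ Submodule.span ℝ (Ψ : Set E)) (hno : ∀ a ∈ Ψ, ∀ b ∈ Ψ, ⟪a, b⟫ ≠ (1 : ℝ)) : -ν ∈ M := by
  classical
  have hO : PFc.OrthIn Ψ ν (PFc.Rt Ψ ν) := by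
    refine ⟨fun a ha => PFc.mem_Rt.1 ha, fun a ha b hb hab => ?_⟩
    rcases MnU.rt_cases S N hν ha hb with h1 | h1 | h1
    · exact absurd h1 hab
    · exact absurd h1 (hno a (PFc.mem_Rt.1 ha).1 b (PFc.mem_Rt.1 hb).1)
    · exact h1
  have hsum : ∀ d ∈ PFc.Rt Ψ ν, ∑ a ∈ PFc.Rt Ψ ν, ⟪a, d⟫ = (2 : ℝ) := by
    intro d hd
    rw [Finset.sum_eq_single d (fun a ha had => hO.2 a ha d hd had) (fun h => absurd hd h)]
    exact S.norm d (PFc.mem_Rt.1 hd).1
  have hz : (2 : ℝ) • ν - ∑ a ∈ PFc.Rt Ψ ν, a = 0 := by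
    refine zero_of_orth3 (Ψ := Ψ) (Submodule.sub_mem _ (Submodule.smul_mem _ _ hsp)
      (Submodule.sum_mem _ fun a ha => Submodule.subset_span (PFc.mem_Rt.1 ha).1)) fun d hd => ?_
    rw [inner_sub_left, inner_smul_left, sum_inner]
    simp only [conj_trivial]
    rcases N.val ν hν d hd with h1 | h1 | h1
    · rw [h1, Finset.sum_eq_zero, mul_zero, sub_zero]
      intro a ha
      obtain ⟨haΨ, hνa⟩ := PFc.mem_Rt.1 ha
      rcases S.cases haΨ hd with h2 | h2 | h2 | h2 | h2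
      · rw [← h2, hνa] at h1; norm_num at h1
      · exact absurd h2 (hno a haΨ d hd)
      · exact h2
      · exact absurd (by rw [inner_neg_right, h2, neg_neg]) (hno a haΨ _ (S.neg d hd))
      · rw [h2, inner_neg_right, hνa] at h1; norm_num at h1
    · rw [h1, hsum d (PFc.mem_Rt.2 ⟨hd, h1⟩)]
      norm_num
    · have h2 := hsum (-d) (PFc.mem_Rt.2 ⟨S.neg d hd, by rw [inner_neg_right, h1, neg_neg]⟩)
      simp only [inner_neg_right, Finset.sum_neg_distrib] at h2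
      rw [h1]
      linarith
  have h5 : ν - ∑ a ∈ PFc.Rt Ψ ν, a = -ν := by
    have h6 : ν - ∑ a ∈ PFc.Rt Ψ ν, a = ((2 : ℝ) • ν - ∑ a ∈ PFc.Rt Ψ ν, a) - ν := by
      rw [two_smul]
      abel
    rw [h6, hz, zero_sub]
  rw [← h5]
  exact sub_sum3 S N hν hO

open Classical in
/-- no orthogonal pair: a simplex -/
theorem frame3 (hirr : PFc.Irr Ψ) (hsp : ν ∈ Submodule.span ℝ (Ψ : Set E))
    (hno : ∀ a ∈ PFc.Rt Ψ ν, ∀ b ∈ PFc.Rt Ψ ν, ⟪a, b⟫ ≠ (0 : ℝ)) {m : ℕ} (hm : m = (PFc.Rt Ψ ν).card + 1) :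
    ∃ (u : Fin m → E) (o : Fin m), FrA Ψ m u ∧ u o = ν := by
  subst hm
  obtain ⟨R, hR⟩ : ∃ R, R = PFc.Rt Ψ ν := ⟨_, rfl⟩
  rw [← hR] at hno ⊢
  have hRΨ : ∀ a ∈ R, a ∈ Ψ ∧ ⟪ν, a⟫ = (1 : ℝ) := fun a ha => PFc.mem_Rt.1 (hR ▸ ha)
  have hin : ∀ a ∈ R, ∀ b ∈ R, ⟪a, b⟫ = (1 : ℝ) + if a = b then 1 else 0 := by
    intro a ha b hb
    rcases MnU.rt_cases S N hν (hR ▸ ha : a ∈ PFc.Rt Ψ ν) (hR ▸ hb : b ∈ PFc.Rt Ψ ν) with h1 | h1 | h1
    · rw [if_pos h1, h1, S.norm b (hRΨ b hb).1]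
      norm_num
    · have hab : a ≠ b := by
        rintro rfl
        rw [S.norm a (hRΨ a ha).1] at h1
        norm_num at h1
      rw [if_neg hab, h1, add_zero]
    · exact absurd h1 (hno a ha b hb)
  have hm0 : ((R.card + 1 : ℕ) : ℝ) ≠ 0 := by
    have := Nat.succ_ne_zero R.card
    exact_mod_cast this
  obtain ⟨w, hw⟩ : ∃ w : E, w = (1 / ((R.card + 1 : ℕ) : ℝ)) • ∑ a ∈ R, a := ⟨_, rfl⟩
  have hwa : ∀ a ∈ R, ⟪w, a⟫ = (1 : ℝ) := by
    intro a ha
    rw [hw, inner_smul_left, sum_inner]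
    simp only [conj_trivial]
    have h1 : ∑ b ∈ R, ⟪b, a⟫ = ((R.card + 1 : ℕ) : ℝ) := by
      rw [Finset.sum_congr rfl fun b hb => hin b hb a ha, Finset.sum_add_distrib, Finset.sum_const, nsmul_eq_mul,
        Finset.sum_ite_eq' R a, if_pos ha]
      push_cast
      ring
    rw [h1, one_div_mul_cancel hm0]
  have hww : ⟪w, w⟫ = 1 - 1 / ((R.card + 1 : ℕ) : ℝ) := by
    have h1 : ⟪w, ∑ a ∈ R, a⟫ = (R.card : ℝ) := by
      rw [inner_sum, Finset.sum_congr rfl hwa, Finset.sum_const, nsmul_eq_mul, mul_one]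
    conv_lhs => rw [hw, inner_smul_left, ← hw]
    simp only [conj_trivial]
    rw [real_inner_comm, h1]
    push_cast
    have h2 : (R.card : ℝ) + 1 ≠ 0 := by
      have := hm0
      push_cast at this
      exact this
    field_simp
    ring
  obtain ⟨e, he⟩ : ∃ e : Fin R.card ≃ R, e = R.equivFin.symm := ⟨_, rfl⟩
  have heR : ∀ i, (e i : E) ∈ R := fun i => (e i).2
  have hwν : w = ν := by
    have hwsp : w ∈ Submodule.span ℝ (Ψ : Set E) := by
      rw [hw]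
      exact Submodule.smul_mem _ _ (Submodule.sum_mem _ fun a ha => Submodule.subset_span (hRΨ a ha).1)
    have h1 : w - ν = 0 := by
      refine zero_of_orth3 (Submodule.sub_mem _ hwsp hsp) fun d hd => ?_
      rw [inner_sub_left]
      rcases N.val ν hν d hd with h1 | h1 | h1
      · obtain ⟨a, ha, c, hc, rfl⟩ := MnU.zero_eq S N hν hirr hd h1
        rw [h1, inner_sub_right, hwa a (hR ▸ ha), hwa c (hR ▸ hc)]
        norm_num
      · rw [hwa d (hR ▸ PFc.mem_Rt.2 ⟨hd, h1⟩), h1, sub_self]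
      · have h2 := hwa (-d) (hR ▸ PFc.mem_Rt.2 ⟨S.neg d hd, by rw [inner_neg_right, h1, neg_neg]⟩)
        rw [inner_neg_right] at h2
        rw [h1]
        linarith
    exact sub_eq_zero.1 h1
  refine ⟨Fin.cons w fun i => w - (e i : E), 0, ⟨fun i j => ?_, fun a => ⟨fun ha => ?_, ?_⟩⟩, by
    rw [Fin.cons_zero]; exact hwν⟩
  · refine Fin.cases ?_ (fun i => ?_) i
    · refine Fin.cases ?_ (fun j => ?_) j
      · rw [Fin.cons_zero, if_pos rfl]
        exact hww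
      · rw [Fin.cons_zero, Fin.cons_succ, inner_sub_right, hww, hwa _ (heR j), if_neg (Fin.succ_ne_zero j).symm]
        ring
    · refine Fin.cases ?_ (fun j => ?_) j
      · rw [Fin.cons_zero, Fin.cons_succ, inner_sub_left, hww, real_inner_comm, hwa _ (heR i),
          if_neg (Fin.succ_ne_zero i)]
        ring
      · rw [Fin.cons_succ, Fin.cons_succ, inner_sub_left, inner_sub_right, inner_sub_right, hww, hwa _ (heR j),
          real_inner_comm, hwa _ (heR i), hin _ (heR i) _ (heR j)]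
        by_cases hij : i = j
        · subst hij
          rw [if_pos rfl, if_pos rfl]
          ring
        · rw [if_neg (fun h => hij (e.injective (Subtype.ext h))), if_neg (fun h => hij (Fin.succ_injective _ h))]
          ring
  · rcases N.val ν hν a ha with h1 | h1 | h1
    · obtain ⟨b, hb, c, hc, rfl⟩ := MnU.zero_eq S N hν hirr ha h1
      rw [← hR] at hb hc
      refine ⟨(e.symm ⟨c, hc⟩).succ, (e.symm ⟨b, hb⟩).succ, fun h => ?_, ?_⟩
      · have h2 := congrArg Subtype.val (e.symm.injective (Fin.succ_injective _ h))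
        have h3 : c = b := h2
        apply S.ne_zero ha
        rw [h3, sub_self]
      · rw [Fin.cons_succ, Fin.cons_succ, Equiv.apply_symm_apply, Equiv.apply_symm_apply]
        abel
    · have haR : a ∈ R := hR ▸ PFc.mem_Rt.2 ⟨ha, h1⟩
      refine ⟨0, (e.symm ⟨a, haR⟩).succ, (Fin.succ_ne_zero _).symm, ?_⟩
      rw [Fin.cons_zero, Fin.cons_succ, Equiv.apply_symm_apply]
      abel
    · have haR : -a ∈ R := hR ▸ PFc.mem_Rt.2 ⟨S.neg a ha, by rw [inner_neg_right, h1, neg_neg]⟩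
      refine ⟨(e.symm ⟨-a, haR⟩).succ, 0, Fin.succ_ne_zero _, ?_⟩
      rw [Fin.cons_zero, Fin.cons_succ, Equiv.apply_symm_apply]
      show a = w - -a - w
      rw [sub_neg_eq_add]
      abel
  · rintro ⟨i, j, hij, rfl⟩
    revert hij
    refine Fin.cases ?_ (fun i => ?_) i
    · refine Fin.cases ?_ (fun j => ?_) j
      · intro h
        exact absurd rfl h
      · intro _
        rw [Fin.cons_zero, Fin.cons_succ, sub_sub_cancel]
        exact (hRΨ _ (heR j)).1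
    · refine Fin.cases ?_ (fun j => ?_) j
      · intro _
        rw [Fin.cons_zero, Fin.cons_succ]
        have h1 : w - (e i : E) - w = -(e i : E) := by abel
        rw [h1]
        exact S.neg _ (hRΨ _ (heR i)).1
      · intro hij
        rw [Fin.cons_succ, Fin.cons_succ]
        have h1 : w - (e i : E) - (w - (e j : E)) = (e j : E) - e i := by abel
        rw [h1]
        refine S.sub _ (hRΨ _ (heR j)).1 _ (hRΨ _ (heR i)).1 ?_
        rw [hin _ (heR j) _ (heR i), if_neg, add_zero]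
        intro h2
        exact hij (by rw [e.injective (Subtype.ext h2)])

end mn

/-- no orthogonal pairs: all roots are short -/
theorem short3 (h : NRS Φ) (hX : Sat' Φ X) (h0 : (0 : E) ∉ X) (h6 : ∀ b ∈ Φ, inner ℝ b b ≠ (6 : ℝ))
    (hirr : PFc.Irr (Psi Φ))
    (hno : ∀ ν ∈ Mm X, ∀ a ∈ PFc.Rt (Psi Φ) ν, ∀ b ∈ PFc.Rt (Psi Φ) ν, ⟪a, b⟫ ≠ (0 : ℝ)) : Psi Φ = Φ := by
  have S := h.SL2
  have N := minU3 h hX h0
  refine Finset.Subset.antisymm (fun a ha => (mem_Psi.1 ha).1) fun b hb => ?_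
  rcases h.length hb with hl | hl | hl
  · exact mem_Psi.2 ⟨hb, hl⟩
  · exfalso
    obtain ⟨g, hg, hbg⟩ := h.exists_short hb
    have h3 : inner ℝ b g = (2 : ℝ) := by
      rcases h.four hb hl hg with h3 | h3 | h3
      · rw [h3] at hbg; norm_num at hbg
      · exact h3
      · rw [h3] at hbg; norm_num at hbg
    obtain ⟨h4, h5⟩ := h.four_sub hb hl hg h3
    obtain ⟨ν, hν⟩ := Mm_nonempty hX.nonempty
    -- a weight of minimal norm, not orthogonal to `g`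
    obtain ⟨μ, hμ, hμg⟩ : ∃ μ ∈ Mm X, ⟪μ, g⟫ ≠ (0 : ℝ) := by
      by_cases h6 : ⟪ν, g⟫ = (0 : ℝ)
      · obtain ⟨a, ha, c, hc, hac⟩ := MnU.zero_eq S N hν hirr hg h6
        refine ⟨ν - a, N.refl ν hν a (PFc.mem_Rt.1 ha).1 (PFc.mem_Rt.1 ha).2, ?_⟩
        rw [inner_sub_left, h6, zero_sub, hac, inner_sub_right, S.norm a (PFc.mem_Rt.1 ha).1]
        have h7 := S.norm g hg
        rw [hac, inner_sub_left, inner_sub_right, inner_sub_right, S.norm a (PFc.mem_Rt.1 ha).1,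
          S.norm c (PFc.mem_Rt.1 hc).1, real_inner_comm a c] at h7
        intro h8
        have h9 := real_inner_comm a c
        linarith
      · exact ⟨ν, hν, h6⟩
    have h7 : ⟪μ, b⟫ = ⟪μ, g⟫ + ⟪μ, b - g⟫ := by
      rw [← inner_add_right, add_sub_cancel]
    obtain ⟨k, hk⟩ := hX.int b hb μ (mem_Mm.1 hμ).1
    unfold co at hk
    rw [hl, h7] at hk
    have hgg : ⟪g, b - g⟫ = (0 : ℝ) := by rw [real_inner_comm]; exact h5
    -- the signs
    have key : ∀ s t : ℝ, (s = 1 ∨ s = -1) → (t = 1 ∨ t = -1) → ⟪μ, g⟫ = s → ⟪μ, b - g⟫ = t → False := by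
      intro s t hs ht hs' ht'
      have ha : s • g ∈ PFc.Rt (Psi Φ) μ := by
        refine PFc.mem_Rt.2 ⟨?_, ?_⟩
        · rcases hs with rfl | rfl
          · rwa [one_smul]
          · rw [neg_one_smul]; exact S.neg g hg
        · rw [inner_smul_right, hs']
          rcases hs with rfl | rfl <;> norm_num
      have hb : t • (b - g) ∈ PFc.Rt (Psi Φ) μ := by
        refine PFc.mem_Rt.2 ⟨?_, ?_⟩
        · rcases ht with rfl | rfl
          · rwa [one_smul]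
          · rw [neg_one_smul]; exact S.neg _ h4
        · rw [inner_smul_right, ht']
          rcases ht with rfl | rfl <;> norm_num
      refine hno μ hμ _ ha _ hb ?_
      rw [inner_smul_left, inner_smul_right, hgg]
      simp
    rcases N.val μ hμ g hg with h8 | h8 | h8
    · exact hμg h8
    · rcases N.val μ hμ _ h4 with h9 | h9 | h9
      · rw [h8, h9] at hk
        have : (1 : ℝ) = 2 * k := by linarith
        have h10 : (1 : ℤ) = 2 * k := by exact_mod_cast this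
        omega
      · exact key 1 1 (Or.inl rfl) (Or.inl rfl) h8 h9
      · exact key 1 (-1) (Or.inl rfl) (Or.inr rfl) h8 h9
    · rcases N.val μ hμ _ h4 with h9 | h9 | h9
      · rw [h8, h9] at hk
        have : (-1 : ℝ) = 2 * k := by linarith
        have h10 : (-1 : ℤ) = 2 * k := by exact_mod_cast this
        omega
      · exact key (-1) 1 (Or.inr rfl) (Or.inl rfl) h8 h9
      · exact key (-1) (-1) (Or.inr rfl) (Or.inr rfl) h8 h9
  · exact absurd hl (h6 b hb)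

/-! ### numerics -/

theorem num_six3 {A n p : ℝ} (hA : 1 ≤ A) (hp0 : 0 ≤ p) (h1 : (A + 2) * (3 * A + 4) ≤ 8 * n) (h3 : 50 * n ≤ p ^ 2)
    (h4 : p ≤ A + 5) : False := by
  have h5 : p ^ 2 ≤ (A + 5) ^ 2 := pow_le_pow_left₀ hp0 h4 2
  nlinarith

theorem num_small3 {A n p : ℝ} (hA : 2 ≤ A) (hp0 : 0 ≤ p) (h1 : (A + 2) * (3 * A + 4) ≤ 8 * n) (h3 : 50 * n ≤ p ^ 2)
    (h4 : p ≤ A + 12) : False := by
  have h5 : p ^ 2 ≤ (A + 12) ^ 2 := pow_le_pow_left₀ hp0 h4 2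
  nlinarith

theorem num_large3 {A n p m : ℝ} (hm : 8 ≤ m) (hp0 : 0 ≤ p) (h1 : (A + 2) * (3 * A + 4) ≤ 8 * n)
    (h2 : m * (m - 1) ≤ 2 * n) (h3 : 50 * n ≤ p ^ 2) (h4 : p ≤ A + 5 + m) : False := by
  have h5 : p ^ 2 ≤ (A + 5 + m) ^ 2 := pow_le_pow_left₀ hp0 h4 2
  have h6 : (A + 5 + m) ^ 2 ≤ 3 * (A + 5 / 3) ^ 2 + 3 * (m - 1 / 2) ^ 2 + 3 * (23 / 6) ^ 2 := by
    nlinarith [sq_nonneg ((A + 5 / 3) - (m - 1 / 2)), sq_nonneg ((A + 5 / 3) - 23 / 6), sq_nonneg ((m - 1 / 2) - 23 / 6)]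
  nlinarith

theorem num_beta3 {A n p : ℝ} {U R : ℕ} (hA : 1 ≤ A) (hp0 : 0 ≤ p) (h1 : (A + 2) * (3 * A + 4) ≤ 8 * n)
    (h2 : (14 : ℝ) + 14 * R + R * (R - 1 - U) ≤ 14 * n) (hR1 : U + 2 ≤ R) (hR2 : 2 * U ≤ R + 10) (h3 : 50 * n ≤ p ^ 2)
    (h4 : p ≤ A + (7 + U)) : False := by
  have hR1' : (U : ℝ) + 2 ≤ R := by exact_mod_cast hR1
  have hR2' : (2 : ℝ) * U ≤ R + 10 := by exact_mod_cast hR2
  have hU0 : (0 : ℝ) ≤ U := Nat.cast_nonneg U
  have h5 : p ^ 2 ≤ (A + (7 + U)) ^ 2 := pow_le_pow_left₀ hp0 h4 2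
  have h6 : (A + (7 + U)) ^ 2 ≤ 5 * (A + 5 / 3) ^ 2 + 5 / 4 * ((U : ℝ) + 16 / 3) ^ 2 := by
    nlinarith [sq_nonneg (2 * (A + 5 / 3) - (1 / 2) * ((U : ℝ) + 16 / 3))]
  have h7 : ((U : ℝ) + 16 / 3) ^ 2 ≤ 29 * n := by
    by_cases hU : U ≤ 23
    · have hU' : (U : ℝ) ≤ 23 := by exact_mod_cast hU
      have h8 : (14 : ℝ) + 14 * (U + 2) + (U + 2) ≤ 14 * n := by nlinarith
      nlinarith
    · push Not at hU
      have hU' : (24 : ℝ) ≤ U := by exact_mod_cast hU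
      have h8 : (14 : ℝ) + 14 * (2 * U - 10) + (2 * U - 10) * (U - 11) ≤ 14 * n := by nlinarith
      nlinarith
  have h9 : (4 : ℝ) ≤ 14 * n / 14 := by
    have : (14 : ℝ) + 14 * (U + 2) + (U + 2) ≤ 14 * n := by nlinarith
    nlinarith
  nlinarith

/-- **The combinatorial theorem**, normalised roots. -/
theorem nrs_comb3 (h : NRS Φ) (hX : Sat' Φ X) (hns : ∃ x ∈ X, -x ∉ X) {n p : ℕ} (hn : X.card ≤ n)
    (hp : 50 * n ≤ p ^ 2) {a x : E} (ha : a ∈ Φ) (hx : x ∈ X) (hb : (p : ℝ) ≤ co a x + qs Φ a) :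
    TypeA Φ ∨ TypeS Φ X := by
  classical
  by_cases hsym : ∃ z ∈ X, -z ∈ X
  · obtain ⟨z, hz, hz'⟩ := hsym
    exact Or.inl (case_sym3 h.toRS hX hns hz hz' hn hp ha hx hb)
  push Not at hsym
  have h0 : (0 : E) ∉ X := fun h0 => hsym 0 h0 (by rwa [neg_zero])
  have S := h.SL2
  have N := minU3 h hX h0
  obtain ⟨ν, hν⟩ := Mm_nonempty hX.nonempty
  have hneg : ∀ ν ∈ Mm X, -ν ∉ Mm X := fun ν hν h1 => hsym ν (mem_Mm.1 hν).1 (mem_Mm.1 h1).1
  have hsp : ∀ ν ∈ Mm X, ν ∈ Submodule.span ℝ (Psi Φ : Set E) := fun ν hν =>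
    span_Psi3 h (hX.span ν (mem_Mm.1 hν).1)
  by_cases hnb : ∃ g ∈ Psi Φ, (Nb Φ g).Nonempty
  swap
  · exfalso
    push Not at hnb
    refine hneg ν hν (case_zero3 S N hν (hsp ν hν) fun a ha b hb hab => ?_)
    have h1 : a ∈ Nb Φ b := mem_Nb.2 ⟨ha, hab⟩
    have h2 := hnb b hb
    rw [h2] at h1
    exact absurd h1 (Finset.notMem_empty a)
  obtain ⟨g, hg, hug⟩ := hnb
  have hirr : PFc.Irr (Psi Φ) := h.irr_Psi hg hug
  have hu : ∀ d ∈ Psi Φ, ((Psi Φ).filter fun e => ⟪e, d⟫ = (1 : ℝ)).card = (Nb Φ g).card := by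
    intro d hd
    rw [← h.card_Nb hg hug hd]
    unfold Nb
    congr
  -- the largest pairing
  obtain ⟨q, hq, hmax⟩ := Finset.exists_max_image (X ×ˢ Psi Φ) (fun q => (⟪q.1, q.2⟫ : ℝ))
    ⟨(x, g), Finset.mem_product.2 ⟨hx, hg⟩⟩
  rw [Finset.mem_product] at hq
  have hmax' : ∀ y ∈ X, ∀ d ∈ Psi Φ, (⟪y, d⟫ : ℝ) ≤ ⟪q.1, q.2⟫ := fun y hy d hd =>
    hmax (y, d) (Finset.mem_product.2 ⟨hy, hd⟩)
  have huq : (Nb Φ q.2).Nonempty := by
    rw [← Finset.card_pos, h.card_Nb hg hug hq.2]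
    exact Finset.card_pos.2 hug
  have hB4 : ((inner ℝ q.1 q.2 : ℝ) + 2) * (3 * inner ℝ q.1 q.2 + 4) ≤ 8 * (X.card : ℝ) := by
    obtain ⟨d, hd⟩ := huq
    rw [mem_Nb] at hd
    have hgd : inner ℝ q.2 d = (1 : ℝ) := by rw [real_inner_comm]; exact hd.2
    refine card_B4 (Ψ := Psi Φ) ?_ ?_ hmax' hq.1 hd.1 (h.sub_Psi hq.2 hd.1 hgd) rfl (mem_Psi.1 hq.2).2
      (mem_Psi.1 hd.1).2 hgd
    · intro a ha y hy
      obtain ⟨k, hk⟩ := hX.int a (mem_Psi.1 ha).1 y hy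
      exact ⟨k, by rw [← hk, co_Psi ha]⟩
    · intro a ha y hy j hj
      exact hX.str a (mem_Psi.1 ha).1 y hy j (by rw [co_Psi ha]; exact hj)
  have hco : co a x ≤ ⟪q.1, q.2⟫ := h.co_le (fun d hd => hmax' x hx d hd) ha
  have hA1 : (1 : ℝ) ≤ ⟪q.1, q.2⟫ := by
    obtain ⟨d, hd, hd0⟩ := N.ne ν hν
    rcases N.val ν hν d hd with h5 | h5 | h5
    · exact absurd h5 hd0
    · rw [← h5]; exact hmax' ν (mem_Mm.1 hν).1 d hd
    · have h6 := hmax' ν (mem_Mm.1 hν).1 (-d) (S.neg d hd)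
      rw [inner_neg_right, h5, neg_neg] at h6
      exact h6
  have hn' : (X.card : ℝ) ≤ n := by exact_mod_cast hn
  have hA8 : ((inner ℝ q.1 q.2 : ℝ) + 2) * (3 * inner ℝ q.1 q.2 + 4) ≤ 8 * (n : ℝ) := by linarith
  have hpn : (50 : ℝ) * n ≤ (p : ℝ) ^ 2 := by exact_mod_cast hp
  have hp0 : (0 : ℝ) ≤ p := Nat.cast_nonneg p
  by_cases h6 : ∃ b ∈ Φ, inner ℝ b b = (6 : ℝ)
  · exfalso
    obtain ⟨b, hb6, h6⟩ := h6
    have h7 := h.qs_le_six hb6 h6 ha
    exact num_six3 hA1 hp0 hA8 hpn (by linarith)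
  push Not at h6
  have h7 := h.qs_le h6 hg hug ha
  have hhalf : ∀ ν ∈ Mm X, ∀ a ∈ PFc.Rt (Psi Φ) ν,
      2 * ((PFc.Rt (Psi Φ) ν).filter fun b => ⟪b, a⟫ = (1 : ℝ)).card = (Nb Φ g).card := by
    intro ν hν a ha
    have h8 := MnU.half S N hν ha
    have h9 := hu a (PFc.mem_Rt.1 ha).1
    rw [← h9]
    convert h8 using 2
  obtain ⟨U, hU⟩ : ∃ U, 2 * U = (Nb Φ g).card := by
    obtain ⟨d, hd, hd0⟩ := N.ne ν hν
    rcases N.val ν hν d hd with h5 | h5 | h5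
    · exact absurd h5 hd0
    · exact ⟨_, hhalf ν hν d (PFc.mem_Rt.2 ⟨hd, h5⟩)⟩
    · exact ⟨_, hhalf ν hν (-d) (PFc.mem_Rt.2 ⟨S.neg d hd, by rw [inner_neg_right, h5, neg_neg]⟩)⟩
  have hU1 : 1 ≤ U := by
    have := Finset.card_pos.2 hug
    omega
  have hUr : ((Nb Φ g).card : ℝ) / 2 = U := by
    rw [← hU]
    push_cast
    ring
  rw [hUr] at h7
  have hUa : ∀ ν ∈ Mm X, ∀ a ∈ PFc.Rt (Psi Φ) ν, ((PFc.Rt (Psi Φ) ν).filter fun b => ⟪b, a⟫ = (1 : ℝ)).card = U := by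
    intro ν hν a ha
    have := hhalf ν hν a ha
    omega
  by_cases hpair : ∃ ν ∈ Mm X, ∃ a ∈ PFc.Rt (Psi Φ) ν, ∃ b ∈ PFc.Rt (Psi Φ) ν, ⟪a, b⟫ = (0 : ℝ)
  · exfalso
    obtain ⟨μ, hμ, c, hc, d, hd, hcd⟩ := hpair
    have h14 : ∀ a ∈ PFc.Rt (Psi Φ) μ, ∀ a' ∈ PFc.Rt (Psi Φ) μ, ⟪a, a'⟫ = (0 : ℝ) →
        ((PFc.Rt (Psi Φ) μ).filter fun c => ⟪c, a + a'⟫ = (2 : ℝ)).card ≤ 14 := fun a ha a' ha' haa =>
      MnU.card_le_14 S N hμ hirr (hsp μ hμ) (hneg μ hμ) ha ha' haa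
    have h8 := MnU.count S N hμ (U := U) (hUa μ hμ) h14
    obtain ⟨h9, h10⟩ := MnU.card_R S N hμ (U := U) (hUa μ hμ) h14 hc hd hcd
    have h11 : (Mm X).card ≤ n := (Finset.card_le_card fun y hy => (mem_Mm.1 hy).1).trans hn
    have h12 : (14 : ℝ) + 14 * (PFc.Rt (Psi Φ) μ).card + (PFc.Rt (Psi Φ) μ).card *
        ((PFc.Rt (Psi Φ) μ).card - 1 - U) ≤ 14 * n := by
      obtain ⟨t, ht⟩ : ∃ t, (PFc.Rt (Psi Φ) μ).card = t + 1 + U := ⟨(PFc.Rt (Psi Φ) μ).card - 1 - U, by omega⟩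
      rw [ht] at h8 ⊢
      have h13 : t + 1 + U - 1 - U = t := by omega
      rw [h13] at h8
      have h14 : 14 + 14 * (t + 1 + U) + (t + 1 + U) * t ≤ 14 * n := by omega
      have h15 : (14 : ℝ) + 14 * (t + 1 + U) + (t + 1 + U) * t ≤ 14 * n := by exact_mod_cast h14
      push_cast
      nlinarith
    exact num_beta3 hA1 hp0 hA8 h12 h9 h10 hpn (by linarith)
  push Not at hpair
  right
  have hΦ : Psi Φ = Φ := short3 h hX h0 h6 hirr hpair
  obtain ⟨r, hr⟩ : ∃ r, r ∈ PFc.Rt (Psi Φ) ν := by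
    obtain ⟨d, hd, hd0⟩ := N.ne ν hν
    rcases N.val ν hν d hd with h5 | h5 | h5
    · exact absurd h5 hd0
    · exact ⟨_, PFc.mem_Rt.2 ⟨hd, h5⟩⟩
    · exact ⟨-d, PFc.mem_Rt.2 ⟨S.neg d hd, by rw [inner_neg_right, h5, neg_neg]⟩⟩
  have hR : (PFc.Rt (Psi Φ) ν).card = 1 + U := by
    have h8 := MnU.card_orth S N hν (U := U) hr (hUa ν hν r hr)
    have h9 : ((PFc.Rt (Psi Φ) ν).filter fun b => ⟪b, r⟫ = (0 : ℝ)) = ∅ :=
      Finset.filter_eq_empty_iff.2 fun b hb => hpair ν hν b hb r hr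
    rw [h9, Finset.card_empty, add_zero] at h8
    exact h8
  obtain ⟨u, o, F, ho⟩ := frame3 S N hν hirr (hsp ν hν) (hpair ν hν) (m := U + 2) (by omega)
  rw [hΦ] at F
  have hoX : u o ∈ X := by rw [ho]; exact (mem_Mm.1 hν).1
  by_cases hA2 : (inner ℝ q.1 q.2 : ℝ) < 2
  · refine typeS_min3 F (by omega) hX hoX fun y hy d hd => ?_
    exact (hmax' y hy d (by rw [hΦ]; exact hd)).trans_lt hA2
  · push Not at hA2
    by_cases hm : 6 ≤ U
    · obtain ⟨l, hl, hlmax⟩ := Finset.exists_max_image X (fun x => (⟪x, x⟫ : ℝ)) hX.nonempty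
      have hl0 : l ≠ 0 := by
        rintro rfl
        exact h0 hl
      rcases boxesA (K := 2) (by omega) (by omega) F hX.int hX.str hl with h8 | ⟨t, k, hk, hk2⟩
      · exfalso
        have h9 := choose_two3 (U + 2)
        have h10 : (U + 2) * (U + 2 - 1) ≤ 2 * n := by
          rw [← h9]
          omega
        have h11 : U + 2 - 1 = U + 1 := by omega
        rw [h11] at h10
        have h12 : ((U : ℝ) + 2) * (U + 1) ≤ 2 * n := by exact_mod_cast h10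
        have h13 : (6 : ℝ) ≤ U := by exact_mod_cast hm
        refine num_large3 (A := ⟪q.1, q.2⟫) (m := (U : ℝ) + 2) (by linarith) hp0 hA8 ?_ hpn (by linarith)
        have h14 : ((U : ℝ) + 2) * (U + 2 - 1) = (U + 2) * (U + 1) := by ring
        rw [h14]
        exact h12
      · exact typeS_few3 F (by omega) hX hl hl0 hlmax hk (by exact_mod_cast hk2)
    · exfalso
      push Not at hm
      have h8 : (U : ℝ) ≤ 5 := by
        have : U ≤ 5 := by omega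
        exact_mod_cast this
      exact num_small3 hA2 hp0 hA8 hpn (by linarith)

/-- **The combinatorial theorem.** -/
theorem comb3 (h : RS Φ) (hX : Sat' Φ X) (hns : ∃ x ∈ X, -x ∉ X) {n p : ℕ} (hn : X.card ≤ n)
    (hp : 50 * n ≤ p ^ 2) {a x : E} (ha : a ∈ Φ) (hx : x ∈ X) (hb : (p : ℝ) ≤ co a x + qs Φ a) :
    TypeA Φ ∨ TypeS Φ X := by
  obtain ⟨m, hm, hmin⟩ := Finset.exists_min_image Φ (fun x => (inner ℝ x x : ℝ)) h.nonempty
  have hm0 : (0 : ℝ) < inner ℝ m m := real_inner_self_pos.2 (h.ne_zero m hm)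
  set c : ℝ := Real.sqrt (2 / inner ℝ m m) with hcdef
  have hc : 0 < c := Real.sqrt_pos.2 (by positivity)
  have hcc : c * c = 2 / inner ℝ m m := Real.mul_self_sqrt (by positivity)
  have hN : NRS (PF.sc c Φ) := by
    refine ⟨h.sc hc, ?_, c • m, (smul_mem_sc hc).2 hm, ?_⟩
    · intro a ha
      obtain ⟨a', ha', rfl⟩ := mem_sc.1 ha
      rw [inner_smul_left, inner_smul_right]
      simp only [conj_trivial]
      rw [← mul_assoc, hcc, div_mul_eq_mul_div, le_div_iff₀ hm0]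
      have := hmin a' ha'
      linarith
    · rw [inner_smul_left, inner_smul_right]
      simp only [conj_trivial]
      rw [← mul_assoc, hcc]
      field_simp
  have h1 := nrs_comb3 hN (sat_sc3 hc hX) (by
      obtain ⟨x, hx, hx0⟩ := hns
      refine ⟨c • x, (smul_mem_sc hc).2 hx, ?_⟩
      rw [← smul_neg, smul_mem_sc hc]
      exact hx0) (n := n) (p := p) (by rw [card_sc hc]; exact hn) hp
    ((smul_mem_sc hc).2 ha) ((smul_mem_sc hc).2 hx) (by rw [co_sc hc, qs_sc hc]; exact hb)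
  rcases h1 with h1 | h1
  · exact Or.inl (h1.of_sc hc)
  · exact Or.inr (typeS_of_sc3 hc h1)

/-- **No large prime factor.** Block AT-P. -/
theorem ex4_prime {n q : ℕ} (hq : q.Prime) (hd : q ∣ n) (h50 : 50 * n ≤ q ^ 2) : n ∉ Ex4 := by
  rintro ⟨ι, hι, Φ, X, l, v, h, hns, hA, hS⟩
  obtain ⟨a, ha, x, hx, hb⟩ := h.prime q hq hd
  rcases comb3 h.rs h.sat hns h.card_le h50 ha hx hb with h1 | h1
  · exact hA h1
  · exact hS h1

end AT
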