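import Pool.Agent.Helper3.AT.Box
import Pool.Agent.Helper81.AT.Defs
import Pool.Agent.Helper81.PW.Comb

/-!
Project AT (MP_b8862a_ag), block AT-E1: type `A` of large rank.
-/

set_option linter.unusedSectionVars false

open Module PF TF PW

namespace AT

variable {E : Type*} [NormedAddCommGroup E] [InnerProductSpace ℝ E] {Φ X : Finset E} {m n : ℕ} {u : Fin m → E}
  {l v : E}

theorem closure_span3 {x : E} (h : x ∈ AddSubgroup.closure (Φ : Set E)) : x ∈ Submodule.span ℝ (Φ : Set E) := by
  induction h using AddSubgroup.closure_induction with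
  | mem a ha => exact Submodule.subset_span ha
  | zero => exact Submodule.zero_mem _
  | add v w _ _ hv hw => exact Submodule.add_mem _ hv hw
  | neg v _ hv => exact Submodule.neg_mem _ hv

theorem int_closure3 (F : FrA Φ m u) {v : E} (hv : v ∈ AddSubgroup.closure (Φ : Set E)) (i : Fin m) :
    ∃ k : ℤ, (inner ℝ v (u i) : ℝ) = k := F.int_closure hv i

/-- the opposite frame -/
theorem frA_neg3 (F : FrA Φ m u) : FrA Φ m (fun i => -u i) := by
  refine ⟨fun i j => ?_, fun a => ?_⟩
  · rw [inner_neg_neg, F.gram]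
  · rw [F.mem]
    constructor
    · rintro ⟨i, j, hij, rfl⟩
      exact ⟨j, i, hij.symm, by abel⟩
    · rintro ⟨i, j, hij, rfl⟩
      exact ⟨j, i, hij.symm, by abel⟩

theorem u_span3 (F : FrA Φ m u) (hm : 0 < m) (i : Fin m) : u i ∈ Submodule.span ℝ (Φ : Set E) := by
  have h1 : u i = (1 / (m : ℝ)) • ∑ j, (u i - u j) := by
    rw [Finset.sum_sub_distrib, F.sum_u hm, sub_zero, Finset.sum_const, Finset.card_univ, Fintype.card_fin,
      ← Nat.cast_smul_eq_nsmul ℝ, smul_smul]
    have : (m : ℝ) ≠ 0 := by exact_mod_cast hm.ne'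
    rw [one_div_mul_cancel this, one_smul]
  rw [h1]
  refine Submodule.smul_mem _ _ (Submodule.sum_mem _ fun j _ => ?_)
  by_cases hij : i = j
  · rw [hij, sub_self]
    exact Submodule.zero_mem _
  · exact Submodule.subset_span (F.mem' hij)

/-- the standard module -/
theorem typeS_of3 (F : FrA Φ m u) (hm : 3 ≤ m) (hX : Sat' Φ X) (hl : l ∈ X)
    (hmax : ∀ x ∈ X, (inner ℝ x x : ℝ) ≤ inner ℝ l l) {i : Fin m} (hi : l = u i) : TypeS Φ X := by
  classical
  have hm0 : (m : ℝ) ≠ 0 := by
    have : 0 < m := by omega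
    exact_mod_cast this.ne'
  refine ⟨m, u, 1, hm, one_pos, fun i j => by rw [F.gram, one_mul], F.mem, fun y => ⟨fun hy => ?_, ?_⟩⟩
  · -- the coordinates
    have h1 := hX.coset y hy l hl
    have hysp : y ∈ Submodule.span ℝ (Φ : Set E) := by
      have h2 := Submodule.add_mem _ (closure_span3 h1) (hi ▸ u_span3 F (by omega) i)
      rwa [sub_add_cancel] at h2
    choose k hk using fun j => F.int_closure h1 j
    have h2 : ∀ j, (inner ℝ y (u j) : ℝ) = (k j + (if i = j then 1 else 0) : ℤ) - 1 / (m : ℝ) := by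
      intro j
      have h3 := hk j
      rw [inner_sub_left, hi, F.gram] at h3
      push_cast
      linarith
    obtain ⟨a, ha⟩ : ∃ a : Fin m → ℤ, ∀ j, a j = k j + (if i = j then 1 else 0) := ⟨_, fun _ => rfl⟩
    simp only [← ha] at h2
    have hsum : ∑ j, (a j : ℝ) = 1 := by
      have h3 := F.sum_ax (by omega) y
      simp only [h2] at h3
      rw [Finset.sum_sub_distrib, Finset.sum_const, Finset.card_univ, Fintype.card_fin, nsmul_eq_mul,
        mul_one_div_cancel hm0] at h3
      linarith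
    have hsq : ∑ j, (a j : ℝ) ^ 2 ≤ 1 := by
      have h3 := hmax y hy
      rw [F.inner_eq hysp, hi, F.gram, if_pos rfl] at h3
      have h4 : ∑ j, (inner ℝ y (u j) : ℝ) * inner ℝ y (u j) =
          ∑ j, (a j : ℝ) ^ 2 - 2 / m * ∑ j, (a j : ℝ) + 1 / m := by
        have h5 : ∀ j, (inner ℝ y (u j) : ℝ) * inner ℝ y (u j) = (a j : ℝ) ^ 2 - 2 / m * a j + 1 / m * (1 / m) := by
          intro j
          rw [h2 j]
          ring
        simp only [h5]
        rw [Finset.sum_add_distrib, Finset.sum_sub_distrib, ← Finset.mul_sum, Finset.sum_const, Finset.card_univ,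
          Fintype.card_fin, nsmul_eq_mul]
        field_simp
      rw [h4, hsum] at h3
      have h5 : (2 : ℝ) / m = 2 * (1 / m) := by ring
      rw [h5] at h3
      linarith
    have hsq' : ∑ j, a j ^ 2 ≤ 1 := by exact_mod_cast hsq
    have hsum' : ∑ j, a j = 1 := by exact_mod_cast hsum
    obtain ⟨j, hj⟩ : ∃ j, a j ≠ 0 := by
      by_contra hcon
      push Not at hcon
      simp only [hcon, Finset.sum_const_zero] at hsum'
      norm_num at hsum'
    have hrest : ∀ j', j' ≠ j → a j' = 0 := by
      intro j' hj'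
      by_contra hcon
      have h3 : a j ^ 2 + a j' ^ 2 ≤ ∑ j, a j ^ 2 := by
        rw [← Finset.add_sum_erase _ _ (Finset.mem_univ j),
          ← Finset.add_sum_erase _ _ (Finset.mem_erase.2 ⟨hj', Finset.mem_univ j'⟩)]
        have : 0 ≤ ∑ l ∈ (Finset.univ.erase j).erase j', a l ^ 2 := Finset.sum_nonneg fun _ _ => sq_nonneg _
        linarith
      have h4 : 1 ≤ a j ^ 2 := Int.one_le_abs hj |> fun h => by nlinarith [sq_abs (a j)]
      have h5 : 1 ≤ a j' ^ 2 := Int.one_le_abs hcon |> fun h => by nlinarith [sq_abs (a j')]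
      omega
    have haj : a j = 1 := by
      rw [Finset.sum_eq_single j (fun b _ hb => hrest b hb) (fun h => absurd (Finset.mem_univ j) h)] at hsum'
      exact hsum'
    refine ⟨j, F.eq_of hysp (u_span3 F (by omega) j) fun k => ?_⟩
    rw [h2 k, F.gram]
    by_cases hjk : j = k
    · rw [← hjk, haj, if_pos rfl]
      norm_num
    · rw [hrest k (Ne.symm hjk), if_neg hjk]
      norm_num
  · rintro ⟨j, rfl⟩
    by_cases hij : i = j
    · rw [← hij, ← hi]
      exact hl
    · have h1 := step3 F hX.str hl hij (by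
        rw [hi, F.gram, F.gram, if_pos rfl, if_neg hij]
        linarith)
      have h2 : l - (u i - u j) = u j := by
        rw [hi]
        abel
      rwa [h2] at h1

theorem choose_two3 (m : ℕ) : 2 * m.choose 2 = m * (m - 1) := by
  rw [Nat.choose_two_right]
  exact Nat.mul_div_cancel' (Nat.even_mul_pred_self m).two_dvd

/-- **Type `A` of large rank**, any number of boxes. -/
theorem dich_frAK (K : ℕ) (hK : 2 ≤ K) : ∃ R D : ℕ, ∀ {E : Type*} [NormedAddCommGroup E] [InnerProductSpace ℝ E]
    {Φ X : Finset E} {m n : ℕ} {l v : E} {u : Fin m → E}, Wd' Φ X n l v → FrA Φ m u → R ≤ m →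
    m ^ K ≤ D * n ∨ TypeS Φ X ∨
      (m ^ 2 ≤ 4 * n ∧ ∃ (k : Fin m → ℤ) (t : ℝ), (∀ i, (inner ℝ l (u i) : ℝ) = k i + t) ∧ ∑ i, |k i| < K) := by
  refine ⟨2 * K + 8, 2 ^ K * K.factorial, ?_⟩
  intro E _ _ Φ X m n l v u h F hm
  have hlsp := h.sat.span _ h.l_mem
  rcases boxesA (by omega : 1 ≤ K) (by omega) F h.sat.int h.sat.str h.l_mem with h1 | ⟨t, k, hk, hk2⟩
  · left
    exact (pow_le_choose (by omega)).trans (Nat.mul_le_mul_left _ (h1.trans h.card_le))
  rcases boxesA (K := 2) (by omega) (by omega) F h.sat.int h.sat.str h.l_mem with h1 | ⟨s, z, hz, hz2⟩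
  · right; right
    refine ⟨?_, k, t, hk, hk2⟩
    have h2 := h1.trans h.card_le
    have h3 := choose_two3 m
    obtain ⟨q, rfl⟩ : ∃ q, m = q + 1 := ⟨m - 1, by omega⟩
    rw [Nat.add_sub_cancel] at h3
    have h4 : 1 ≤ q := by omega
    nlinarith
  · right; left
    have hm0 : (m : ℝ) ≠ 0 := by
      have : 0 < m := by omega
      exact_mod_cast this.ne'
    have hs : (∑ i, (z i : ℝ)) + m * s = 0 := by
      have h3 := F.sum_ax (by omega) l
      simp only [hz] at h3
      rw [Finset.sum_add_distrib, Finset.sum_const, Finset.card_univ, Fintype.card_fin, nsmul_eq_mul] at h3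
      exact h3
    have hz1 : ∑ i, |z i| ≤ 1 := by
      have : ((2 : ℕ) : ℤ) = 2 := rfl
      omega
    obtain ⟨j, hj⟩ : ∃ j, z j ≠ 0 := by
      by_contra hcon
      push Not at hcon
      apply h.l_ne
      simp only [hcon, Int.cast_zero, Finset.sum_const_zero, zero_add] at hs hz
      have hs0 : s = 0 := (mul_eq_zero.1 hs).resolve_left hm0
      have : (inner ℝ l l : ℝ) = 0 := by
        rw [F.inner_eq hlsp]
        exact Finset.sum_eq_zero fun i _ => by rw [hz i, hs0]; norm_num
      exact inner_self_eq_zero.1 this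
    have hrest : ∀ i, i ≠ j → z i = 0 := by
      intro i hi
      by_contra hcon
      have h3 : |z j| + |z i| ≤ ∑ i, |z i| := by
        rw [← Finset.add_sum_erase _ _ (Finset.mem_univ j),
          ← Finset.add_sum_erase _ _ (Finset.mem_erase.2 ⟨hi, Finset.mem_univ i⟩)]
        have : 0 ≤ ∑ l ∈ (Finset.univ.erase j).erase i, |z l| := Finset.sum_nonneg fun _ _ => abs_nonneg _
        linarith
      have h4 := Int.one_le_abs hj
      have h5 := Int.one_le_abs hcon
      omega
    have hzj : z j = 1 ∨ z j = -1 := by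
      have h3 : |z j| ≤ ∑ i, |z i| := Finset.single_le_sum (fun k _ => abs_nonneg (z k)) (Finset.mem_univ j)
      have h4 := Int.one_le_abs hj
      have h5 : |z j| = 1 := by omega
      exact abs_eq (by norm_num) |>.1 h5
    have hsum : ∑ i, (z i : ℝ) = z j := by
      refine Finset.sum_eq_single j (fun i _ hi => by rw [hrest i hi, Int.cast_zero]) (fun h => ?_)
      exact absurd (Finset.mem_univ j) h
    rw [hsum] at hs
    rcases hzj with hzj | hzj
    · have hsv : s = -(1 / (m : ℝ)) := by
        rw [hzj] at hs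
        push_cast at hs
        field_simp
        linarith
      refine typeS_of3 F (by omega) h.sat h.l_mem h.l_max (i := j) (F.eq_of hlsp (u_span3 F (by omega) j) fun i => ?_)
      rw [hz i, hsv, F.gram]
      by_cases hij : j = i
      · rw [← hij, hzj, if_pos rfl]
        norm_num
        ring
      · rw [hrest i (Ne.symm hij), if_neg hij]
        norm_num
    · have hsv : s = 1 / (m : ℝ) := by
        rw [hzj] at hs
        push_cast at hs
        field_simp
        linarith
      have F' := frA_neg3 F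
      refine typeS_of3 F' (by omega) h.sat h.l_mem h.l_max (i := j)
        (F.eq_of hlsp (u_span3 F' (by omega) j) fun i => ?_)
      rw [hz i, hsv, inner_neg_left, F.gram]
      by_cases hij : j = i
      · rw [← hij, hzj, if_pos rfl]
        norm_num
        ring
      · rw [hrest i (Ne.symm hij), if_neg hij]
        norm_num

/-- **Type `A` of large rank.** Block AT-E1. -/
theorem dich_frA' (K : ℕ) (hK : 2 ≤ K) : ∃ R D : ℕ, ∀ {E : Type*} [NormedAddCommGroup E] [InnerProductSpace ℝ E]
    {Φ X : Finset E} {m n : ℕ} {l v : E} {u : Fin m → E}, Wd' Φ X n l v → FrA Φ m u → R ≤ m →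
    TypeS Φ X ∨ m ^ K ≤ D * n ∨
      (m ^ 2 ≤ 4 * n ∧ ∃ (k : Fin m → ℤ) (t : ℝ), (∀ i, (inner ℝ l (u i) : ℝ) = k i + t) ∧ ∑ i, |k i| < K) := by
  obtain ⟨R, D, h⟩ := dich_frAK.{_} K hK
  refine ⟨R, D, ?_⟩
  intro E _ _ Φ X m n l v u hw F hm
  rcases h hw F hm with h1 | h1 | h1
  · exact Or.inr (Or.inl h1)
  · exact Or.inl h1
  · exact Or.inr (Or.inr h1)

end AT
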