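import Pool.Agent.Helper27.TF.A

/-!
Project AT (MP_b8862a_ag), block AT-E1: the weights in the coordinates of `A_(m-1)`, `m` large, no symmetry.
-/

set_option linter.unusedSectionVars false

open Module PF TF

namespace AT

variable {E : Type*} [NormedAddCommGroup E] [InnerProductSpace ℝ E] {Φ X : Finset E} {m : ℕ} {u : Fin m → E}

/-- Up to a constant the coordinates have sum of absolute values less than `K`. -/
def Few3 (u : Fin m → E) (K : ℕ) (x : E) : Prop :=
  ∃ (s : ℝ) (k : Fin m → ℤ), (∀ i, (inner ℝ x (u i) : ℝ) = k i + s) ∧ ∑ i, |k i| < K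

theorem step3 (F : FrA Φ m u) (hstr : ∀ a ∈ Φ, ∀ x ∈ X, ∀ j : ℕ, (j : ℝ) ≤ co a x → x - (j : ℝ) • a ∈ X) {x : E}
    (hx : x ∈ X) {i j : Fin m} (hij : i ≠ j) (h1 : (1 : ℝ) ≤ inner ℝ x (u i) - inner ℝ x (u j)) :
    x - (u i - u j) ∈ X := by
  have h2 := hstr _ (F.mem' hij) x hx 1 (by rw [F.co hij, Nat.cast_one]; exact h1)
  rw [Nat.cast_one, one_smul] at h2
  exact h2

theorem int_sub3 (F : FrA Φ m u) (hint : ∀ a ∈ Φ, ∀ x ∈ X, ∃ k : ℤ, co a x = k) {x : E} (hx : x ∈ X) (i j : Fin m) :
    ∃ k : ℤ, (inner ℝ x (u i) - inner ℝ x (u j) : ℝ) = k := by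
  by_cases hij : i = j
  · exact ⟨0, by rw [hij]; simp⟩
  · obtain ⟨k, hk⟩ := hint _ (F.mem' hij) x hx
    rw [F.co hij] at hk
    exact ⟨k, hk⟩

/-- the norm after one step -/
theorem norm_step3 (F : FrA Φ m u) (w : E) {i j : Fin m} (hij : i ≠ j) :
    (inner ℝ (w - (u i - u j)) (w - (u i - u j)) : ℝ) =
      inner ℝ w w - 2 * (inner ℝ w (u i) - inner ℝ w (u j)) + 2 := by
  rw [_root_.inner_sub_left w (u i - u j), inner_sub_right w w (u i - u j), inner_sub_right (u i - u j) w,
    F.norm hij, real_inner_comm w (u i - u j), F.inner_sub']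
  ring

/-- coordinates `s, s ± 1`: many weights -/
theorem choose_of_small3 (F : FrA Φ m u)
    (hstr : ∀ a ∈ Φ, ∀ x ∈ X, ∀ j : ℕ, (j : ℝ) ≤ co a x → x - (j : ℝ) • a ∈ X) {x : E} (hx : x ∈ X) (s : ℝ)
    (w : Fin m → ℤ) (hw : ∀ i, (inner ℝ x (u i) : ℝ) = w i + s) (h1 : ∀ i, |w i| ≤ 1) {k : ℕ}
    (hk : ∑ i, |w i| = k) : m.choose k ≤ X.card := by
  classical
  let P : Finset (Fin m) → Prop := fun S => ∃ x ∈ X, ∃ w : Fin m → ℤ, (∀ i, (inner ℝ x (u i) : ℝ) = w i + s) ∧
    (∀ i, |w i| ≤ 1) ∧ ∀ i, i ∈ S ↔ w i ≠ 0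
  have hstep : ∀ S, P S → ∀ i ∈ S, ∀ j, j ∉ S → P (insert j (S.erase i)) := by
    rintro S ⟨x, hx, w, hw, h1, hS⟩ i hi j hj
    have hij : i ≠ j := by rintro rfl; exact hj hi
    have hwi := (hS i).1 hi
    have hwj : w j = 0 := by
      by_contra h
      exact hj ((hS j).2 h)
    have hs : w i = 1 ∨ w i = -1 := by
      have := h1 i
      rw [abs_le] at this
      omega
    obtain ⟨x', hx', hx''⟩ : ∃ x' ∈ X, ∀ k, (inner ℝ x' (u k) : ℝ) =
        inner ℝ x (u k) - w i * ((if i = k then 1 else 0) - (if j = k then 1 else 0)) := by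
      rcases hs with h | h
      · refine ⟨_, step3 F hstr hx hij (by rw [hw i, hw j, h, hwj]; norm_num), fun k => ?_⟩
        rw [F.ax_step, h]; push_cast; ring
      · refine ⟨_, step3 F hstr hx hij.symm (by rw [hw i, hw j, h, hwj]; norm_num), fun k => ?_⟩
        rw [F.ax_step, h]; push_cast; ring
    refine ⟨x', hx', fun l => if l = i then 0 else if l = j then w i else w l, fun l => ?_, fun l => ?_,
      fun l => ?_⟩
    · rw [hx'', hw l]
      by_cases hli : l = i
      · subst hli
        simp [hij.symm]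
      · by_cases hlj : l = j
        · subst hlj
          simp [hli, hij, hwj]
          ring
        · simp [hli, hlj, Ne.symm hli, Ne.symm hlj]
    · by_cases hli : l = i
      · simp [hli]
      · by_cases hlj : l = j
        · simp only [hlj, hij.symm, if_false, if_true]; exact h1 i
        · simp only [hli, hlj, if_false]; exact h1 l
    · by_cases hli : l = i
      · subst hli
        simp [hij]
      · by_cases hlj : l = j
        · subst hlj
          simp [hli, hwi]
        · simp only [hli, hlj, if_false, Finset.mem_insert, Finset.mem_erase, false_or, ne_eq,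
            not_false_eq_true, true_and]
          exact hS l
  have hcard : (Finset.univ.filter fun i => w i ≠ 0).card = k := by
    have h2 : ((Finset.univ.filter fun i => w i ≠ 0).card : ℤ) = ∑ i, |w i| := by
      rw [Finset.card_filter]
      push_cast
      refine Finset.sum_congr rfl fun i _ => ?_
      have h3 := h1 i
      rw [abs_le] at h3
      have h4 : w i = 0 ∨ w i = 1 ∨ w i = -1 := by omega
      rcases h4 with h | h | h <;> simp [h]
    rw [hk] at h2
    exact_mod_cast h2
  have hall := exch P _ (⟨x, hx, w, hw, h1, fun i => by simp⟩ : P (Finset.univ.filter fun i => w i ≠ 0)) hcard hstep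
  refine choose_le X k (fun y S => ∀ i, i ∈ S ↔ (inner ℝ y (u i) : ℝ) ≠ s) ?_ (fun S hS => ?_)
  · intro y S S' h2 h3
    ext i
    rw [h2 i, h3 i]
  · obtain ⟨x', hx', w', hw', _, hS'⟩ := hall S hS
    refine ⟨x', hx', fun i => ?_⟩
    rw [hS' i, hw' i]
    simp

theorem choose_mono3 {m K r : ℕ} (h1 : K ≤ r) (h2 : 2 * r ≤ m) : m.choose K ≤ m.choose r := by
  induction r, h1 using Nat.le_induction with
  | base => exact le_rfl
  | succ r hr ih =>
    exact (ih (by omega)).trans (Nat.choose_le_succ_of_lt_half_left (by omega))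

/-- move a box -/
theorem sum_abs_move (k : Fin m → ℤ) {i j : Fin m} (hij : i ≠ j) :
    ∑ l, |k l - ((if i = l then 1 else 0) - (if j = l then 1 else 0))| =
      ∑ l, |k l| - |k i| - |k j| + |k i - 1| + |k j + 1| := by
  classical
  have h : ∀ g : Fin m → ℤ, ∑ l, g l = g i + g j + ∑ l ∈ (Finset.univ.erase i).erase j, g l := by
    intro g
    rw [← Finset.add_sum_erase _ _ (Finset.mem_univ i),
      ← Finset.add_sum_erase _ _ (Finset.mem_erase.2 ⟨hij.symm, Finset.mem_univ j⟩)]
    ring
  rw [h (fun l => |k l - ((if i = l then 1 else 0) - (if j = l then 1 else 0))|), h (fun l => |k l|)]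
  have h1 : ∑ l ∈ (Finset.univ.erase i).erase j, |k l - ((if i = l then 1 else 0) - (if j = l then 1 else 0))| =
      ∑ l ∈ (Finset.univ.erase i).erase j, |k l| := by
    refine Finset.sum_congr rfl fun l hl => ?_
    have h2 := (Finset.mem_erase.1 hl).1
    have h3 := (Finset.mem_erase.1 (Finset.mem_erase.1 hl).2).1
    rw [if_neg (Ne.symm h3), if_neg (Ne.symm h2)]
    simp
  rw [h1]
  simp only [if_true, hij, hij.symm, if_false, sub_zero, zero_sub, sub_neg_eq_add]
  ring

theorem zeros3 {k : Fin m → ℤ} {B : ℕ} (h : ∑ i, |k i| ≤ B) :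
    m ≤ B + (Finset.univ.filter fun i => k i = 0).card := by
  classical
  have h1 : ∑ i : Fin m, (1 : ℤ) ≤ ∑ i, (|k i| + if k i = 0 then 1 else 0) := by
    refine Finset.sum_le_sum fun i _ => ?_
    split_ifs with hi
    · rw [hi]; norm_num
    · have := Int.one_le_abs hi
      omega
  rw [Finset.sum_add_distrib, Finset.sum_boole, Finset.sum_const, Finset.card_univ, Fintype.card_fin] at h1
  simp only [nsmul_eq_mul, mul_one] at h1
  have h2 : (m : ℤ) ≤ B + ((Finset.univ.filter fun i => k i = 0).card : ℤ) := by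
    have : ((m : ℕ) : ℤ) ≤ ∑ i, |k i| + ((Finset.univ.filter fun i => k i = 0).card : ℤ) := by exact_mod_cast h1
    linarith
  exact_mod_cast h2

/-- **Many weights or few boxes.** -/
theorem boxesA {K : ℕ} (hK : 1 ≤ K) (hm : 2 * K + 4 ≤ m) (F : FrA Φ m u)
    (hint : ∀ a ∈ Φ, ∀ x ∈ X, ∃ k : ℤ, co a x = k)
    (hstr : ∀ a ∈ Φ, ∀ x ∈ X, ∀ j : ℕ, (j : ℝ) ≤ co a x → x - (j : ℝ) • a ∈ X) {x : E} (hx : x ∈ X) :
    m.choose K ≤ X.card ∨ Few3 u K x := by
  classical
  by_cases hfew : Few3 u K x
  · exact Or.inr hfew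
  left
  let Y := X.filter fun x => ¬ Few3 u K x
  have hY : Y.Nonempty := ⟨x, Finset.mem_filter.2 ⟨hx, hfew⟩⟩
  obtain ⟨w, hw, hmin⟩ := Finset.exists_min_image Y (fun x => (inner ℝ x x : ℝ)) hY
  obtain ⟨hwX, hwf⟩ := Finset.mem_filter.1 hw
  -- a step which makes the norm smaller makes the number of boxes small
  have hstepf : ∀ i j, i ≠ j → (2 : ℝ) ≤ inner ℝ w (u i) - inner ℝ w (u j) → Few3 u K (w - (u i - u j)) := by
    intro i j hij h1
    by_contra hcon
    have h2 := step3 F hstr hwX hij (by linarith)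
    have h3 := hmin _ (Finset.mem_filter.2 ⟨h2, hcon⟩)
    rw [norm_step3 F w hij] at h3
    linarith
  by_cases hbig : ∃ i j, i ≠ j ∧ (2 : ℝ) ≤ inner ℝ w (u i) - inner ℝ w (u j)
  · obtain ⟨i, j, hij, h1⟩ := hbig
    obtain ⟨s, k', hk', hk'2⟩ := hstepf i j hij h1
    obtain ⟨k, hk⟩ : ∃ k : Fin m → ℤ, ∀ l, k l = k' l + ((if i = l then 1 else 0) - (if j = l then 1 else 0)) :=
      ⟨_, fun _ => rfl⟩
    have hwk : ∀ l, (inner ℝ w (u l) : ℝ) = k l + s := by
      intro l
      have h2 := hk' l
      rw [F.ax_step] at h2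
      rw [hk l]
      push_cast
      linarith
    have hkK : (K : ℤ) ≤ ∑ l, |k l| := by
      by_contra hcon
      push Not at hcon
      exact hwf ⟨s, k, hwk, hcon⟩
    have hkK1 : ∑ l, |k l| ≤ K + 1 := by
      have h2 : ∑ l, |k l| ≤ ∑ l, |k' l| + 2 := by
        have h3 : ∀ l, |k l| ≤ |k' l| + ((if i = l then 1 else 0) + (if j = l then 1 else 0)) := by
          intro l
          rw [hk l]
          refine (abs_add_le _ _).trans (add_le_add le_rfl ?_)
          split_ifs <;> norm_num
        refine (Finset.sum_le_sum fun l _ => h3 l).trans ?_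
        rw [Finset.sum_add_distrib, Finset.sum_add_distrib, Finset.sum_ite_eq, Finset.sum_ite_eq,
          if_pos (Finset.mem_univ _), if_pos (Finset.mem_univ _)]
        norm_num
      omega
    have hz := zeros3 (B := K + 1) (by push_cast; exact hkK1)
    -- a further step which keeps the number of boxes is impossible
    have hno : ∀ i j, i ≠ j → (2 : ℝ) ≤ inner ℝ w (u i) - inner ℝ w (u j) →
        (K : ℤ) ≤ ∑ l, |k l| - |k i| - |k j| + |k i - 1| + |k j + 1| → False := by
      intro i j hij h1 h2
      obtain ⟨s', k2, hk2, hk22⟩ := hstepf i j hij h1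
      rw [← sum_abs_move k hij] at h2
      have h3 : ∀ l, ((k l - ((if i = l then 1 else 0) - (if j = l then 1 else 0)) : ℤ) : ℝ) + s = k2 l + s' := by
        intro l
        rw [← hk2 l, F.ax_step, hwk l]
        push_cast
        ring
      obtain ⟨k3, hk3⟩ : ∃ k3 : Fin m → ℤ, ∀ l, k3 l = k l - ((if i = l then 1 else 0) - (if j = l then 1 else 0)) :=
        ⟨_, fun _ => rfl⟩
      simp only [← hk3] at h2 h3
      obtain ⟨c, hc⟩ : ∃ c : ℤ, ∀ l, k2 l = k3 l + c := by
        refine ⟨k2 i - k3 i, fun l => ?_⟩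
        have h4 := h3 l
        have h5 := h3 i
        have h6 : ((k2 l : ℤ) : ℝ) = ((k3 l + (k2 i - k3 i) : ℤ) : ℝ) := by
          push_cast
          linarith
        exact_mod_cast h6
      rcases eq_or_ne c 0 with hc0 | hc0
      · simp only [hc, hc0, add_zero] at hk22
        omega
      · -- at least `m - K - 3` of the entries of `k3` are zero
        have h4 : ∑ l, |k3 l| ≤ K + 3 := by
          have h5 := sum_abs_move k hij
          simp only [← hk3] at h5
          rw [h5]
          have h6 : |k i - 1| ≤ |k i| + 1 := by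
            have := abs_sub (k i) 1
            rwa [abs_one] at this
          have h7 : |k j + 1| ≤ |k j| + 1 := by
            have := abs_add_le (k j) 1
            rwa [abs_one] at this
          omega
        have h5 := zeros3 (B := K + 3) (by push_cast; exact h4)
        have h6 : ((Finset.univ.filter fun i => k3 i = 0).card : ℤ) ≤ ∑ l, |k2 l| := by
          have h7 : ((Finset.univ.filter fun i => k3 i = 0).card : ℤ) = ∑ l, (if k3 l = 0 then (1 : ℤ) else 0) := by
            rw [Finset.sum_boole]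
          rw [h7]
          refine Finset.sum_le_sum fun l _ => ?_
          split_ifs with hl
          · rw [hc l, hl, zero_add]
            exact Int.one_le_abs hc0
          · exact abs_nonneg _
        have h7 : (m : ℤ) ≤ K + 3 + ((Finset.univ.filter fun i => k3 i = 0).card : ℤ) := by exact_mod_cast h5
        have h8 : (2 * K + 4 : ℤ) ≤ m := by exact_mod_cast hm
        linarith
    have hk1 : ∀ l, |k l| ≤ 1 := by
      by_contra hcon
      push Not at hcon
      obtain ⟨l, hl⟩ := hcon
      obtain ⟨j0, hj0⟩ : (Finset.univ.filter fun i => k i = 0).Nonempty := by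
        rw [← Finset.card_pos]
        omega
      have hj0' : k j0 = 0 := (Finset.mem_filter.1 hj0).2
      have hne : l ≠ j0 := by
        rintro rfl
        rw [hj0'] at hl
        norm_num at hl
      rcases le_or_gt 0 (k l) with h0 | h0
      · rw [abs_of_nonneg h0] at hl
        have h2 : (2 : ℤ) ≤ k l := by omega
        refine hno l j0 hne ?_ ?_
        · rw [hwk l, hwk j0, hj0']
          have : (2 : ℝ) ≤ k l := by exact_mod_cast h2
          push_cast
          linarith
        · rw [hj0', abs_of_nonneg h0, abs_of_nonneg (by omega : (0 : ℤ) ≤ k l - 1), abs_zero, zero_add, abs_one]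
          linarith
      · rw [abs_of_neg h0] at hl
        have h2 : k l ≤ -2 := by omega
        refine hno j0 l hne.symm ?_ ?_
        · rw [hwk l, hwk j0, hj0']
          have : (k l : ℝ) ≤ -2 := by exact_mod_cast h2
          push_cast
          linarith
        · rw [hj0', abs_of_neg h0, abs_of_nonpos (by omega : k l + 1 ≤ (0 : ℤ)), abs_zero, zero_sub, abs_neg, abs_one]
          linarith
    obtain ⟨r, hr⟩ : ∃ r : ℕ, ∑ l, |k l| = r := Int.eq_ofNat_of_zero_le (Finset.sum_nonneg fun l _ => abs_nonneg _)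
    have h2 := choose_of_small3 F hstr hwX s k hwk hk1 hr
    refine (choose_mono3 ?_ ?_).trans h2
    · rw [hr] at hkK
      exact_mod_cast hkK
    · rw [hr] at hkK1
      have : r ≤ K + 1 := by exact_mod_cast hkK1
      omega
  · push Not at hbig
    have hm0 : 0 < m := by omega
    obtain ⟨i0, _, hi0⟩ := Finset.exists_min_image (Finset.univ : Finset (Fin m)) (fun i => (inner ℝ w (u i) : ℝ))
      ⟨⟨0, hm0⟩, Finset.mem_univ _⟩
    choose z hz using fun i => int_sub3 F hint hwX i i0
    have hz01 : ∀ i, z i = 0 ∨ z i = 1 := by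
      intro i
      by_cases hi : i = i0
      · left
        have h1 := hz i
        rw [hi, sub_self] at h1
        rw [hi]
        exact_mod_cast h1.symm
      · have h1 := hbig i i0 hi
        have h2 := hi0 i (Finset.mem_univ i)
        rw [hz i] at h1
        have h3 : (0 : ℝ) ≤ z i := by rw [← hz i]; linarith
        have h4 : z i < 2 := by exact_mod_cast h1
        have h5 : 0 ≤ z i := by exact_mod_cast h3
        omega
    obtain ⟨S, hS⟩ : ∃ S : Finset (Fin m), S = Finset.univ.filter fun i => z i = 1 := ⟨_, rfl⟩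
    have hS1 : ∑ i, |z i| = S.card := by
      rw [hS, Finset.card_filter]
      push_cast
      refine Finset.sum_congr rfl fun i _ => ?_
      rcases hz01 i with h | h <;> rw [h] <;> norm_num
    have hS2 : ∑ i, |z i - 1| = (m : ℤ) - S.card := by
      have h1 : ∀ i, |z i - 1| = 1 - |z i| := by
        intro i
        rcases hz01 i with h | h <;> rw [h] <;> norm_num
      simp only [h1]
      rw [Finset.sum_sub_distrib, hS1, Finset.sum_const, Finset.card_univ, Fintype.card_fin]
      simp
    have hSm : S.card ≤ m := by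
      have := Finset.card_le_univ S
      rwa [Fintype.card_fin] at this
    by_cases h2 : 2 * S.card ≤ m
    · have hw1 : ∀ i, (inner ℝ w (u i) : ℝ) = z i + inner ℝ w (u i0) := fun i => by rw [← hz i]; ring
      have h3 : K ≤ S.card := by
        by_contra hcon
        push Not at hcon
        refine hwf ⟨_, z, hw1, ?_⟩
        rw [hS1]
        exact_mod_cast hcon
      refine (choose_mono3 h3 h2).trans (choose_of_small3 F hstr hwX _ z hw1 (fun i => ?_) hS1)
      rcases hz01 i with h | h <;> rw [h] <;> norm_num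
    · have hw1 : ∀ i, (inner ℝ w (u i) : ℝ) = ((z i - 1 : ℤ) : ℝ) + (inner ℝ w (u i0) + 1) := fun i => by
        push_cast
        rw [← hz i]
        ring
      have h4 : ∑ i, |z i - 1| = ((m - S.card : ℕ) : ℤ) := by
        rw [hS2]
        push_cast [hSm]
        ring
      have h3 : K ≤ m - S.card := by
        by_contra hcon
        push Not at hcon
        refine hwf ⟨_, fun i => z i - 1, hw1, ?_⟩
        change ∑ i, |z i - 1| < (K : ℤ)
        rw [h4]
        exact_mod_cast hcon
      refine (choose_mono3 h3 (by omega)).trans (choose_of_small3 F hstr hwX _ (fun i => z i - 1) hw1 (fun i => ?_) h4)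
      rcases hz01 i with h | h <;> simp only [h] <;> norm_num

end AT
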