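import Pool.Agent.Helper2.PF.Cb3

/-!
Project AT (MP_b8862a_ag), block AT-P: minuscule weights, not symmetric (after Helper2/PF/Cb1 to Cb3).
-/

set_option linter.unusedSectionVars false

open scoped RealInnerProductSpace
open PFc

namespace AT

variable {E : Type*} [NormedAddCommGroup E] [InnerProductSpace ℝ E]

/-- A set of minuscule weights, stable under the reflections. -/
structure MnU (Ψ M : Finset E) : Prop where
  val : ∀ ν ∈ M, ∀ g ∈ Ψ, ⟪ν, g⟫ = 0 ∨ ⟪ν, g⟫ = 1 ∨ ⟪ν, g⟫ = -1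
  refl : ∀ ν ∈ M, ∀ g ∈ Ψ, ⟪ν, g⟫ = 1 → ν - g ∈ M
  ne : ∀ ν ∈ M, ∃ g ∈ Ψ, ⟪ν, g⟫ ≠ 0

section

variable {Ψ M : Finset E} (S : SL Ψ) (N : MnU Ψ M)
include S N

/-- roots with inner product one with a weight have nonnegative inner products -/
theorem MnU.nonneg {ν a b : E} (hν : ν ∈ M) (ha : a ∈ Ψ) (hb : b ∈ Ψ) (h1 : ⟪ν, a⟫ = 1) (h2 : ⟪ν, b⟫ = 1) :
    a = b ∨ ⟪a, b⟫ = 1 ∨ ⟪a, b⟫ = 0 := by
  rcases S.cases ha hb with h | h | h | h | h
  · exact Or.inl h
  · exact Or.inr (Or.inl h)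
  · exact Or.inr (Or.inr h)
  · exfalso
    have h3 := N.val ν hν _ (S.add ha hb h)
    rw [inner_add_right, h1, h2] at h3
    norm_num at h3
  · exfalso
    rw [h, inner_neg_right, h1] at h2
    norm_num at h2

theorem MnU.nonneg' {ν a b : E} (hν : ν ∈ M) (ha : a ∈ Ψ) (hb : b ∈ Ψ) (h1 : ⟪ν, a⟫ = 1) (h2 : ⟪ν, b⟫ = 1) :
    0 ≤ ⟪a, b⟫ := by
  rcases MnU.nonneg S N hν ha hb h1 h2 with h | h | h
  · rw [h, S.norm b hb]; norm_num
  · rw [h]; norm_num
  · rw [h]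

end

section

variable {Ψ M : Finset E} (S : SL Ψ) (N : MnU Ψ M) {ν : E} (hν : ν ∈ M)
include S N hν

theorem MnU.rt_cases {a b : E} (ha : a ∈ Rt Ψ ν) (hb : b ∈ Rt Ψ ν) : a = b ∨ ⟪a, b⟫ = 1 ∨ ⟪a, b⟫ = 0 :=
  MnU.nonneg S N hν (mem_Rt.1 ha).1 (mem_Rt.1 hb).1 (mem_Rt.1 ha).2 (mem_Rt.1 hb).2

theorem MnU.rt_nonneg {a b : E} (ha : a ∈ Rt Ψ ν) (hb : b ∈ Rt Ψ ν) : 0 ≤ ⟪a, b⟫ :=
  MnU.nonneg' S N hν (mem_Rt.1 ha).1 (mem_Rt.1 hb).1 (mem_Rt.1 ha).2 (mem_Rt.1 hb).2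

theorem MnU.rt_ne {a b : E} (ha : a ∈ Rt Ψ ν) (hb : b ∈ Rt Ψ ν) (h : ⟪a, b⟫ ≠ 2) : ⟪a, b⟫ = 1 ∨ ⟪a, b⟫ = 0 := by
  rcases MnU.rt_cases S N hν ha hb with h1 | h1
  · rw [h1, S.norm b (mem_Rt.1 hb).1] at h
    exact absurd rfl h
  · exact h1

theorem MnU.rt_eq {a b : E} (ha : a ∈ Rt Ψ ν) (hb : b ∈ Rt Ψ ν) (h : ⟪a, b⟫ = 2) : a = b := by
  rcases MnU.rt_cases S N hν ha hb with h1 | h1 | h1
  · exact h1
  · rw [h1] at h; norm_num at h
  · rw [h1] at h; norm_num at h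

open Classical in
/-- half of the neighbours of a root of `R` are in `R` -/
theorem MnU.half {a : E} (ha : a ∈ Rt Ψ ν) :
    2 * ((Rt Ψ ν).filter fun b => ⟪b, a⟫ = 1).card = (Ψ.filter fun b => ⟪b, a⟫ = 1).card := by
  obtain ⟨haΨ, hνa⟩ := mem_Rt.1 ha
  set Na := Ψ.filter fun b => ⟪b, a⟫ = 1 with hNa
  have h1 : ((Rt Ψ ν).filter fun b => ⟪b, a⟫ = 1) = Na.filter fun b => ⟪ν, b⟫ = 1 := by
    ext b
    simp only [hNa, Finset.mem_filter, mem_Rt]
    tauto
  have h2 := Finset.card_filter_add_card_filter_not (s := Na) (fun b => ⟪ν, b⟫ = 1)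
  have h3 : (Na.filter fun b => ¬⟪ν, b⟫ = 1).card = (Na.filter fun b => ⟪ν, b⟫ = 1).card := by
    refine Finset.card_nbij' (fun b => a - b) (fun b => a - b) ?_ ?_ ?_ ?_
    · intro b hb
      rw [Finset.mem_coe, Finset.mem_filter, hNa, Finset.mem_filter] at hb
      obtain ⟨⟨hb1, hb2⟩, hb3⟩ := hb
      rw [Finset.mem_coe, Finset.mem_filter, hNa, Finset.mem_filter]
      have hs := S.sub a haΨ b hb1 (by rw [real_inner_comm]; exact hb2)
      refine ⟨⟨hs, by rw [inner_sub_left, S.norm a haΨ, hb2]; norm_num⟩, ?_⟩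
      have h4 := N.val ν hν _ hs
      rw [inner_sub_right, hνa] at h4 ⊢
      rcases N.val ν hν b hb1 with h5 | h5 | h5
      · rw [h5]; norm_num
      · exact absurd h5 hb3
      · rw [h5] at h4; norm_num at h4
    · intro b hb
      rw [Finset.mem_coe, Finset.mem_filter, hNa, Finset.mem_filter] at hb
      obtain ⟨⟨hb1, hb2⟩, hb3⟩ := hb
      rw [Finset.mem_coe, Finset.mem_filter, hNa, Finset.mem_filter]
      have hs := S.sub a haΨ b hb1 (by rw [real_inner_comm]; exact hb2)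
      refine ⟨⟨hs, by rw [inner_sub_left, S.norm a haΨ, hb2]; norm_num⟩, ?_⟩
      rw [inner_sub_right, hνa, hb3]
      norm_num
    · intro b _
      exact sub_sub_cancel a b
    · intro b _
      exact sub_sub_cancel a b
  rw [h1]
  omega

/-- (E7)(a) -/
theorem MnU.zero_eq (hirr : Irr Ψ) {d : E} (hd : d ∈ Ψ) (h0 : ⟪ν, d⟫ = 0) :
    ∃ a ∈ Rt Ψ ν, ∃ c ∈ Rt Ψ ν, d = a - c := by
  classical
  obtain ⟨g, hg, hg0⟩ := N.ne ν hν
  obtain ⟨r, hr⟩ : ∃ r, r ∈ Rt Ψ ν := by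
    rcases N.val ν hν g hg with h | h | h
    · exact absurd h hg0
    · exact ⟨g, mem_Rt.2 ⟨hg, h⟩⟩
    · exact ⟨-g, mem_Rt.2 ⟨S.neg g hg, by rw [inner_neg_right, h, neg_neg]⟩⟩
  -- roots which are not orthogonal to `R`, or not to `ν`
  set A := Ψ.filter fun d => ¬ (⟪ν, d⟫ = 0 ∧ ∀ a ∈ Rt Ψ ν, ⟪d, a⟫ = 0) with hA
  have hA1 : A = Ψ := by
    refine hirr A (Finset.filter_subset _ _) ⟨r, ?_⟩ ?_
    · rw [hA, Finset.mem_filter]
      refine ⟨(mem_Rt.1 hr).1, fun h => ?_⟩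
      rw [(mem_Rt.1 hr).2] at h
      norm_num at h
    · intro a ha b hb hbA
      rw [hA, Finset.mem_filter] at ha hbA
      obtain ⟨haΨ, ha'⟩ := ha
      have hb' : ⟪ν, b⟫ = 0 ∧ ∀ a ∈ Rt Ψ ν, ⟪b, a⟫ = 0 := by
        by_contra h
        exact hbA ⟨hb, h⟩
      rcases N.val ν hν a haΨ with h | h | h
      · -- `a` is a difference
        have h2 : ∃ c ∈ Rt Ψ ν, ⟪a, c⟫ ≠ 0 := by
          by_contra h3
          push Not at h3
          exact ha' ⟨h, h3⟩
        obtain ⟨c, hc, hac⟩ := h2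
        obtain ⟨hcΨ, hνc⟩ := mem_Rt.1 hc
        rcases S.cases haΨ hcΨ with h3 | h3 | h3 | h3 | h3
        · rw [h3, hνc] at h; norm_num at h
        · have h4 := S.sub c hcΨ a haΨ (by rw [real_inner_comm]; exact h3)
          have h5 : c - a ∈ Rt Ψ ν := mem_Rt.2 ⟨h4, by rw [inner_sub_right, hνc, h, sub_zero]⟩
          have h6 : a = c - (c - a) := by abel
          rw [h6, inner_sub_left, real_inner_comm, hb'.2 c hc, real_inner_comm, hb'.2 _ h5, sub_zero]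
        · exact absurd h3 hac
        · have h4 := S.add haΨ hcΨ h3
          have h5 : a + c ∈ Rt Ψ ν := mem_Rt.2 ⟨h4, by rw [inner_add_right, hνc, h, zero_add]⟩
          have h6 : a = (a + c) - c := by abel
          rw [h6, inner_sub_left, real_inner_comm, hb'.2 _ h5, real_inner_comm, hb'.2 c hc, sub_zero]
        · rw [h3, inner_neg_right, h] at hνc; norm_num at hνc
      · rw [real_inner_comm]; exact hb'.2 a (mem_Rt.2 ⟨haΨ, h⟩)
      · have h2 : -a ∈ Rt Ψ ν := mem_Rt.2 ⟨S.neg a haΨ, by rw [inner_neg_right, h, neg_neg]⟩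
        have h3 := hb'.2 _ h2
        rw [inner_neg_right, neg_eq_zero] at h3
        rw [real_inner_comm]; exact h3
  have hdA : d ∈ A := by rw [hA1]; exact hd
  rw [hA, Finset.mem_filter] at hdA
  have h2 : ∃ c ∈ Rt Ψ ν, ⟪d, c⟫ ≠ 0 := by
    by_contra h3
    push Not at h3
    exact hdA.2 ⟨h0, h3⟩
  obtain ⟨c, hc, hdc⟩ := h2
  obtain ⟨hcΨ, hνc⟩ := mem_Rt.1 hc
  rcases S.cases hd hcΨ with h3 | h3 | h3 | h3 | h3
  · rw [h3, hνc] at h0; norm_num at h0
  · have h4 := S.sub c hcΨ d hd (by rw [real_inner_comm]; exact h3)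
    exact ⟨c, hc, c - d, mem_Rt.2 ⟨h4, by rw [inner_sub_right, hνc, h0, sub_zero]⟩, by abel⟩
  · exact absurd h3 hdc
  · have h4 := S.add hd hcΨ h3
    exact ⟨d + c, mem_Rt.2 ⟨h4, by rw [inner_add_right, hνc, h0, zero_add]⟩, c, hc, by abel⟩
  · rw [h3, inner_neg_right, h0] at hνc; norm_num at hνc

/-- (E7)(b) -/
theorem MnU.conn (hirr : Irr Ψ) {R' : Finset E} (h1 : R' ⊆ Rt Ψ ν) (h2 : R'.Nonempty)
    (h3 : ∀ a ∈ R', ∀ b ∈ Rt Ψ ν, b ∉ R' → ⟪a, b⟫ = 0) : R' = Rt Ψ ν := by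
  classical
  set A := Ψ.filter fun d => d ∈ R' ∨ -d ∈ R' ∨ (⟪ν, d⟫ = 0 ∧ ∃ a ∈ R', ∃ c ∈ R', d = a - c) with hA
  -- orthogonality to the other part
  have horth : ∀ a ∈ A, ∀ b ∈ Rt Ψ ν, b ∉ R' → ⟪a, b⟫ = 0 := by
    intro a ha b hb hb'
    rw [hA, Finset.mem_filter] at ha
    rcases ha.2 with h | h | ⟨-, c, hc, c', hc', h⟩
    · exact h3 a h b hb hb'
    · have := h3 _ h b hb hb'
      rwa [inner_neg_left, neg_eq_zero] at this
    · rw [h, inner_sub_left, h3 c hc b hb hb', h3 c' hc' b hb hb', sub_zero]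
  have hA1 : A = Ψ := by
    obtain ⟨r, hr⟩ := h2
    refine hirr A (Finset.filter_subset _ _) ⟨r, ?_⟩ ?_
    · rw [hA, Finset.mem_filter]
      exact ⟨(mem_Rt.1 (h1 hr)).1, Or.inl hr⟩
    · intro a ha b hb hbA
      have hb' : ¬ (b ∈ R' ∨ -b ∈ R' ∨ (⟪ν, b⟫ = 0 ∧ ∃ a ∈ R', ∃ c ∈ R', b = a - c)) := fun h =>
        hbA (by rw [hA, Finset.mem_filter]; exact ⟨hb, h⟩)
      push Not at hb'
      rcases N.val ν hν b hb with h | h | h
      · obtain ⟨c, hc, c', hc', hcc⟩ := MnU.zero_eq S N hν hirr hb h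
        have hnc : ⟪c, c'⟫ = 1 := by
          have h5 := S.norm b hb
          rw [hcc, inner_sub_left, inner_sub_right, inner_sub_right, S.norm c (mem_Rt.1 hc).1,
            S.norm c' (mem_Rt.1 hc').1, real_inner_comm c c'] at h5
          linarith
        by_cases h5 : c ∈ R'
        · by_cases h6 : c' ∈ R'
          · exact absurd hcc (hb'.2.2 h c h5 c' h6)
          · have := h3 c h5 c' hc' h6
            rw [hnc] at this
            norm_num at this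
        · by_cases h6 : c' ∈ R'
          · have := h3 c' h6 c hc h5
            rw [real_inner_comm, hnc] at this
            norm_num at this
          · rw [hcc, inner_sub_right, horth a ha c hc h5, horth a ha c' hc' h6, sub_zero]
      · exact horth a ha b (mem_Rt.2 ⟨hb, h⟩) hb'.1
      · have h5 := horth a ha (-b) (mem_Rt.2 ⟨S.neg b hb, by rw [inner_neg_right, h, neg_neg]⟩) hb'.2.1
        rwa [inner_neg_right, neg_eq_zero] at h5
  refine Finset.Subset.antisymm h1 fun b hb => ?_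
  by_contra hb'
  have hbA : b ∈ A := by rw [hA1]; exact (mem_Rt.1 hb).1
  have h5 := horth b hbA b hb hb'
  rw [S.norm b (mem_Rt.1 hb).1] at h5
  norm_num at h5


/-- the other root of a pair with the same sum -/
theorem MnU.flip {a a' c : E} (ha : a ∈ Rt Ψ ν) (ha' : a' ∈ Rt Ψ ν) (horth : ⟪a, a'⟫ = 0) (hc : c ∈ Rt Ψ ν)
    (h : ⟪c, a + a'⟫ = 2) : a + a' - c ∈ Rt Ψ ν := by
  obtain ⟨haΨ, hνa⟩ := mem_Rt.1 ha
  obtain ⟨haΨ', hνa'⟩ := mem_Rt.1 ha'
  obtain ⟨hcΨ, hνc⟩ := mem_Rt.1 hc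
  rw [inner_add_right] at h
  rcases MnU.rt_cases S N hν hc ha with h1 | h1 | h1
  · rw [h1, add_sub_cancel_left]
    exact ha'
  · have h2 : ⟪c, a'⟫ = 1 := by linarith
    have h3 := S.sub a haΨ c hcΨ (by rw [real_inner_comm]; exact h1)
    have h4 : ⟪a - c, a'⟫ = -1 := by rw [inner_sub_left, horth, h2]; norm_num
    have h5 := S.add h3 haΨ' h4
    have h6 : a + a' - c = a - c + a' := by abel
    rw [h6]
    refine mem_Rt.2 ⟨h5, ?_⟩
    rw [inner_add_right, inner_sub_right, hνa, hνa', hνc]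
    norm_num
  · have h2 : ⟪c, a'⟫ = 2 := by linarith
    have h3 := MnU.rt_eq S N hν hc ha' h2
    rw [h3, add_sub_cancel_right]
    exact ha

open Classical in
/-- **Bessel's inequality.** -/
theorem MnU.bessel {a a' : E} (ha : a ∈ Rt Ψ ν) (ha' : a' ∈ Rt Ψ ν) (haa0 : ⟪a, a'⟫ = 0) {b : E}
    (hb : b ∈ Rt Ψ ν) (hb1 : ⟪b, a + a'⟫ = 1) :
    ((Rt Ψ ν).filter fun c => ⟪c, a + a'⟫ = 2).card ≤ 14 := by
  obtain ⟨haΨ, hνa⟩ := mem_Rt.1 ha
  obtain ⟨haΨ', hνa'⟩ := mem_Rt.1 ha'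
  obtain ⟨hbΨ, hνb⟩ := mem_Rt.1 hb
  set C := (Rt Ψ ν).filter fun c => ⟪c, a + a'⟫ = 2 with hC
  have h4 : ⟪a + a', a + a'⟫ = 4 := by
    rw [inner_add_left, inner_add_right, inner_add_right, S.norm a haΨ, S.norm a' haΨ', real_inner_comm a a', haa0]
    norm_num
  have hflip : ∀ c ∈ C, a + a' - c ∈ C := by
    intro c hc
    rw [hC, Finset.mem_filter] at hc ⊢
    refine ⟨MnU.flip S N hν ha ha' haa0 hc.1 hc.2, ?_⟩
    rw [inner_sub_left, h4, hc.2]
    norm_num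
  -- inner products inside `C`
  have hgram : ∀ c₁ ∈ C, ∀ c ∈ C, ⟪c₁, c⟫ - 1 = (if c₁ = c then (1 : ℝ) else 0) - (if c₁ = a + a' - c then (1 : ℝ) else 0) := by
    intro c₁ hc₁ c hc
    have hc' := hflip c hc
    have hs : ⟪c₁, c⟫ + ⟪c₁, a + a' - c⟫ = 2 := by
      rw [hC, Finset.mem_filter] at hc₁
      rw [← inner_add_right, add_sub_cancel, hc₁.2]
    have hR1 := (Finset.mem_filter.1 hc₁).1
    have hR := (Finset.mem_filter.1 hc).1
    have hR' := (Finset.mem_filter.1 hc').1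
    rcases MnU.rt_cases S N hν hR1 hR with h | h | h
    · have h5 : ⟪c₁, c⟫ = 2 := by rw [h, S.norm c (mem_Rt.1 hR).1]
      have h6 : c₁ ≠ a + a' - c := by
        intro h7
        have h8 : ⟪c₁, a + a' - c⟫ = 2 := by
          rw [← h7, S.norm c₁ (mem_Rt.1 hR1).1]
        linarith
      rw [if_pos h, if_neg h6, h5]
      norm_num
    · have h5 : c₁ ≠ c := by
        intro h7
        rw [h7, S.norm c (mem_Rt.1 hR).1] at h
        norm_num at h
      have h6 : c₁ ≠ a + a' - c := by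
        intro h7
        have h8 : ⟪c₁, a + a' - c⟫ = 2 := by
          rw [← h7, S.norm c₁ (mem_Rt.1 hR1).1]
        linarith
      rw [if_neg h5, if_neg h6, h]
      norm_num
    · have h5 : c₁ ≠ c := by
        intro h7
        rw [h7, S.norm c (mem_Rt.1 hR).1] at h
        norm_num at h
      have h6 : c₁ = a + a' - c := MnU.rt_eq S N hν hR1 hR' (by linarith)
      rw [if_neg h5, if_pos h6, h]
  -- the values of `b`
  have hg2 : ∀ c ∈ C, (⟪b, c⟫ - 1 / 2) ^ 2 = 1 / 4 := by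
    intro c hc
    have hc' := hflip c hc
    have hR := (Finset.mem_filter.1 hc).1
    have hR' := (Finset.mem_filter.1 hc').1
    have hs : ⟪b, c⟫ + ⟪b, a + a' - c⟫ = 1 := by rw [← inner_add_right, add_sub_cancel, hb1]
    have h5 := MnU.rt_nonneg S N hν hb hR
    have h6 := MnU.rt_nonneg S N hν hb hR'
    rcases MnU.rt_ne S N hν hb hR (by linarith) with h | h
    · rw [h]; norm_num
    · rw [h]; norm_num
  set g : E → ℝ := fun c => ⟪b, c⟫ - 1 / 2 with hg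
  have hgflip : ∀ c, g (a + a' - c) = -g c := by
    intro c
    simp only [hg, inner_sub_right, hb1]
    ring
  set e : E := (1 / 2 : ℝ) • (a + a') with he
  have hee : ⟪e, e⟫ = 1 := by rw [he, inner_smul_left, inner_smul_right, h4]; norm_num
  have hce : ∀ c ∈ C, ⟪c, e⟫ = 1 := by
    intro c hc
    rw [he, inner_smul_right, (Finset.mem_filter.1 hc).2]
    norm_num
  have hbe : ⟪b, e⟫ = 1 / 2 := by rw [he, inner_smul_right, hb1]; norm_num
  set T : E := ∑ c ∈ C, g c • (c - e) with hT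
  have hbT : ⟪b, T⟫ = (C.card : ℝ) / 4 := by
    rw [hT, inner_sum]
    have : ∀ c ∈ C, ⟪b, g c • (c - e)⟫ = 1 / 4 := by
      intro c hc
      rw [inner_smul_right, inner_sub_right, hbe]
      have := hg2 c hc
      simp only [hg]
      linarith [this, sq (⟪b, c⟫ - 1 / 2)]
    rw [Finset.sum_congr rfl this, Finset.sum_const, nsmul_eq_mul]
    ring
  have heT : ⟪e, T⟫ = 0 := by
    rw [hT, inner_sum]
    refine Finset.sum_eq_zero fun c hc => ?_
    rw [inner_smul_right, inner_sub_right, real_inner_comm, hce c hc, hee, sub_self, mul_zero]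
  have hTc : ∀ c ∈ C, ⟪T, c - e⟫ = 2 * g c := by
    intro c hc
    rw [hT, sum_inner]
    have h5 : ∀ c₁ ∈ C, ⟪g c₁ • (c₁ - e), c - e⟫ =
        (if c₁ = c then g c₁ else 0) - (if c₁ = a + a' - c then g c₁ else 0) := by
      intro c₁ hc₁
      have h6 : ⟪c₁ - e, c - e⟫ = ⟪c₁, c⟫ - 1 := by
        rw [inner_sub_left, inner_sub_right, inner_sub_right, hce c₁ hc₁, real_inner_comm c e, hce c hc, hee]
        ring
      rw [inner_smul_left, h6, hgram c₁ hc₁ c hc]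
      simp only [conj_trivial]
      split_ifs <;> ring
    rw [Finset.sum_congr rfl h5, Finset.sum_sub_distrib, Finset.sum_ite_eq' C c, if_pos hc,
      Finset.sum_ite_eq' C (a + a' - c), if_pos (hflip c hc), hgflip]
    ring
  have hTT : ⟪T, T⟫ = (C.card : ℝ) / 2 := by
    conv_lhs => rw [hT, inner_sum]
    have h5 : ∀ c ∈ C, ⟪∑ c ∈ C, g c • (c - e), g c • (c - e)⟫ = 1 / 2 := by
      intro c hc
      rw [inner_smul_right, ← hT, hTc c hc]
      have := hg2 c hc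
      simp only [hg]
      linarith [this, sq (⟪b, c⟫ - 1 / 2)]
    rw [Finset.sum_congr rfl h5, Finset.sum_const, nsmul_eq_mul]
    ring
  have hw : 0 ≤ ⟪b - (1 / 2 : ℝ) • e - (1 / 2 : ℝ) • T, b - (1 / 2 : ℝ) • e - (1 / 2 : ℝ) • T⟫ :=
    real_inner_self_nonneg
  have hcomp : ⟪b - (1 / 2 : ℝ) • e - (1 / 2 : ℝ) • T, b - (1 / 2 : ℝ) • e - (1 / 2 : ℝ) • T⟫ =
      7 / 4 - (C.card : ℝ) / 8 := by
    simp only [inner_sub_left, inner_sub_right, inner_smul_left, inner_smul_right, conj_trivial,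
      S.norm b hbΨ, hbe, hbT, hee, heT, hTT]
    have e1 : ⟪e, b⟫ = 1 / 2 := by rw [real_inner_comm]; exact hbe
    have e2 : ⟪T, b⟫ = (C.card : ℝ) / 4 := by rw [real_inner_comm]; exact hbT
    have e4 : ⟪T, e⟫ = 0 := by rw [real_inner_comm]; exact heT
    simp only [e1, e2, e4]
    ring
  rw [hcomp] at hw
  have h9 : (C.card : ℝ) ≤ 14 := by linarith
  exact_mod_cast h9

/-- values of the inner product with the sum of an orthogonal pair -/
theorem MnU.pair_cases {a a' b : E} (ha : a ∈ Rt Ψ ν) (ha' : a' ∈ Rt Ψ ν) (horth : ⟪a, a'⟫ = 0) (hb : b ∈ Rt Ψ ν) :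
    ⟪b, a + a'⟫ = 2 ∨ ⟪b, a + a'⟫ = 1 ∨ (⟪b, a⟫ = 0 ∧ ⟪b, a'⟫ = 0) := by
  rw [inner_add_right]
  rcases MnU.rt_cases S N hν hb ha with h | h | h
  · left
    rw [h, S.norm a (mem_Rt.1 ha).1, horth, add_zero]
  · rcases MnU.rt_cases S N hν hb ha' with h' | h' | h'
    · rw [h', real_inner_comm, horth] at h
      norm_num at h
    · left; rw [h, h']; norm_num
    · right; left; rw [h, h']; norm_num
  · rcases MnU.rt_cases S N hν hb ha' with h' | h' | h'
    · left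
      rw [h', real_inner_comm, horth, S.norm a' (mem_Rt.1 ha').1, zero_add]
    · right; left; rw [h, h']; norm_num
    · right; right; exact ⟨h, h'⟩

/-- a pair whose sum is adjacent to everything -/
theorem MnU.pair_all (hirr : Irr Ψ) {a a' : E} (ha : a ∈ Rt Ψ ν) (ha' : a' ∈ Rt Ψ ν) (horth : ⟪a, a'⟫ = 0)
    (h : ∀ b ∈ Rt Ψ ν, ⟪b, a + a'⟫ ≠ 1) : ∀ b ∈ Rt Ψ ν, ⟪b, a + a'⟫ = 2 := by
  classical
  have h1 : (Rt Ψ ν).filter (fun c => ⟪c, a + a'⟫ = 2) = Rt Ψ ν := by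
    refine MnU.conn S N hν hirr (Finset.filter_subset _ _) ⟨a, Finset.mem_filter.2 ⟨ha, ?_⟩⟩ ?_
    · rw [inner_add_right, S.norm a (mem_Rt.1 ha).1, horth, add_zero]
    · intro c hc b hb hbn
      rw [Finset.mem_filter] at hc hbn
      have h2 : ⟪b, a⟫ = 0 ∧ ⟪b, a'⟫ = 0 := by
        rcases MnU.pair_cases S N hν ha ha' horth hb with h2 | h2 | h2
        · exact absurd ⟨hb, h2⟩ hbn
        · exact absurd h2 (h b hb)
        · exact h2
      have h3 := MnU.flip S N hν ha ha' horth hc.1 hc.2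
      have h4 : ⟪b, c⟫ + ⟪b, a + a' - c⟫ = 0 := by
        rw [← inner_add_right, add_sub_cancel, inner_add_right, h2.1, h2.2, add_zero]
      have h5 := MnU.rt_nonneg S N hν hb hc.1
      have h6 := MnU.rt_nonneg S N hν hb h3
      rw [real_inner_comm]
      linarith
  intro b hb
  rw [← h1] at hb
  exact (Finset.mem_filter.1 hb).2

/-- then the negative is a weight -/
theorem MnU.neg_mem (hirr : Irr Ψ) (hsp : ν ∈ Submodule.span ℝ (Ψ : Set E)) {a a' : E} (ha : a ∈ Rt Ψ ν)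
    (ha' : a' ∈ Rt Ψ ν) (horth : ⟪a, a'⟫ = 0) (h : ∀ b ∈ Rt Ψ ν, ⟪b, a + a'⟫ = 2) : -ν ∈ M := by
  have h1 : ∀ d ∈ Ψ, ⟪ν + ν - (a + a'), d⟫ = 0 := by
    intro d hd
    rw [inner_sub_left, inner_add_left]
    rcases N.val ν hν d hd with h2 | h2 | h2
    · obtain ⟨c, hc, c', hc', rfl⟩ := MnU.zero_eq S N hν hirr hd h2
      rw [h2, inner_sub_right, real_inner_comm c, h c hc, real_inner_comm c', h c' hc']
      norm_num
    · rw [h2, real_inner_comm, h d (mem_Rt.2 ⟨hd, h2⟩)]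
      norm_num
    · have h3 := h (-d) (mem_Rt.2 ⟨S.neg d hd, by rw [inner_neg_right, h2, neg_neg]⟩)
      rw [inner_neg_left, real_inner_comm] at h3
      rw [h2]
      linarith
  have h2 : ν + ν - (a + a') ∈ Submodule.span ℝ (Ψ : Set E) :=
    Submodule.sub_mem _ (Submodule.add_mem _ hsp hsp) (Submodule.add_mem _ (Submodule.subset_span (mem_Rt.1 ha).1)
      (Submodule.subset_span (mem_Rt.1 ha').1))
  have h3 : ∀ y ∈ Submodule.span ℝ (Ψ : Set E), ⟪ν + ν - (a + a'), y⟫ = 0 := by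
    intro y hy
    induction hy using Submodule.span_induction with
    | mem x hx => exact h1 x hx
    | zero => exact inner_zero_right _
    | add x y _ _ hx hy => rw [inner_add_right, hx, hy, add_zero]
    | smul r x _ hx => rw [inner_smul_right, hx, mul_zero]
  have h4 := inner_self_eq_zero.1 (h3 _ h2)
  have h5 := N.refl ν hν a (mem_Rt.1 ha).1 (mem_Rt.1 ha).2
  have h6 := N.refl _ h5 a' (mem_Rt.1 ha').1 (by rw [inner_sub_left, (mem_Rt.1 ha').2, horth, sub_zero])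
  have h7 : ν - a - a' = -ν := by
    have h8 : ν - a - a' = (ν + ν - (a + a')) - ν := by abel
    rw [h8, h4, zero_sub]
  rwa [h7] at h6

open Classical in
/-- not symmetric: every orthogonal pair has few others with the same sum -/
theorem MnU.card_le_14 (hirr : Irr Ψ) (hsp : ν ∈ Submodule.span ℝ (Ψ : Set E)) (hneg : -ν ∉ M) {a a' : E}
    (ha : a ∈ Rt Ψ ν) (ha' : a' ∈ Rt Ψ ν) (horth : ⟪a, a'⟫ = 0) :
    ((Rt Ψ ν).filter fun c => ⟪c, a + a'⟫ = 2).card ≤ 14 := by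
  by_cases h : ∃ b ∈ Rt Ψ ν, ⟪b, a + a'⟫ = 1
  · obtain ⟨b, hb, hb1⟩ := h
    exact MnU.bessel S N hν ha ha' horth hb hb1
  · push Not at h
    exact absurd (MnU.neg_mem S N hν hirr hsp ha ha' horth (MnU.pair_all S N hν hirr ha ha' horth h)) hneg

open Classical in
/-- the number of roots of `R` orthogonal to one of them -/
theorem MnU.card_orth {U : ℕ} {a : E} (ha : a ∈ Rt Ψ ν) (hU : ((Rt Ψ ν).filter fun b => ⟪b, a⟫ = 1).card = U) :
    (Rt Ψ ν).card = 1 + U + ((Rt Ψ ν).filter fun b => ⟪b, a⟫ = 0).card := by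
  have h1 := Finset.card_filter_add_card_filter_not (s := Rt Ψ ν) (fun b => ⟪b, a⟫ = 0)
  have h2 : (Rt Ψ ν).filter (fun b => ¬⟪b, a⟫ = 0) = insert a ((Rt Ψ ν).filter fun b => ⟪b, a⟫ = 1) := by
    ext b
    rw [Finset.mem_insert, Finset.mem_filter, Finset.mem_filter]
    constructor
    · rintro ⟨hb, hb0⟩
      rcases MnU.rt_cases S N hν hb ha with h | h | h
      · exact Or.inl h
      · exact Or.inr ⟨hb, h⟩
      · exact absurd h hb0
    · rintro (rfl | ⟨hb, hb1⟩)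
      · exact ⟨ha, by rw [S.norm b (mem_Rt.1 ha).1]; norm_num⟩
      · exact ⟨hb, by rw [hb1]; norm_num⟩
  rw [h2, Finset.card_insert_of_notMem, hU] at h1
  · omega
  · intro h3
    have h4 := (Finset.mem_filter.1 h3).2
    rw [S.norm a (mem_Rt.1 ha).1] at h4
    norm_num at h4

open Classical in
/-- **Many weights.** -/
theorem MnU.count {U : ℕ} (hU : ∀ a ∈ Rt Ψ ν, ((Rt Ψ ν).filter fun b => ⟪b, a⟫ = 1).card = U)
    (h14 : ∀ a ∈ Rt Ψ ν, ∀ a' ∈ Rt Ψ ν, ⟪a, a'⟫ = 0 → ((Rt Ψ ν).filter fun c => ⟪c, a + a'⟫ = 2).card ≤ 14) :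
    14 + 14 * (Rt Ψ ν).card + (Rt Ψ ν).card * ((Rt Ψ ν).card - 1 - U) ≤ 14 * M.card := by
  obtain ⟨R, hR⟩ : ∃ R, R = Rt Ψ ν := ⟨_, rfl⟩
  obtain ⟨P, hP⟩ : ∃ P : Finset (E × E), P = (R ×ˢ R).filter fun q => ⟪q.1, q.2⟫ = 0 := ⟨_, rfl⟩
  have hPc : P.card = R.card * (R.card - 1 - U) := by
    have h1 : P.card = ∑ a ∈ R, (R.filter fun b => ⟪b, a⟫ = 0).card := by
      rw [hP, Finset.card_filter, Finset.sum_product]
      refine Finset.sum_congr rfl fun a _ => ?_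
      rw [Finset.card_filter]
      exact Finset.sum_congr rfl fun b _ => by simp only [real_inner_comm]
    rw [h1, Finset.sum_const_nat (m := R.card - 1 - U)]
    intro a ha
    rw [hR] at ha ⊢
    have h2 := MnU.card_orth S N hν ha (hU a ha)
    omega
  obtain ⟨T, hT⟩ : ∃ T : Finset E, T = P.image fun q => ν - (q.1 + q.2) := ⟨_, rfl⟩
  have hPT : P.card ≤ 14 * T.card := by
    rw [hT]
    refine Finset.card_le_mul_card_image P 14 fun y hy => ?_
    obtain ⟨q, hq, rfl⟩ := Finset.mem_image.1 hy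
    have hq' : (q.1 ∈ R ∧ q.2 ∈ R) ∧ ⟪q.1, q.2⟫ = 0 := by
      rw [hP, Finset.mem_filter, Finset.mem_product] at hq
      exact hq
    have h2 := h14 q.1 (hR ▸ hq'.1.1) q.2 (hR ▸ hq'.1.2) hq'.2
    refine le_trans (Finset.card_le_card_of_injOn (fun p => p.1) ?_ ?_) h2
    · intro p hp
      rw [Finset.mem_coe, Finset.mem_filter] at hp
      have hp' : (p.1 ∈ R ∧ p.2 ∈ R) ∧ ⟪p.1, p.2⟫ = 0 := by
        have := hp.1
        rw [hP, Finset.mem_filter, Finset.mem_product] at this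
        exact this
      have h3 : p.1 + p.2 = q.1 + q.2 := by
        have := hp.2
        exact sub_right_injective this
      rw [Finset.mem_coe, Finset.mem_filter]
      refine ⟨hR ▸ hp'.1.1, ?_⟩
      rw [← h3, inner_add_right, hp'.2, add_zero]
      exact S.norm p.1 (mem_Rt.1 (hR ▸ hp'.1.1 : p.1 ∈ Rt Ψ ν)).1
    · intro p hp p' hp' hpp
      rw [Finset.mem_coe, Finset.mem_filter] at hp hp'
      have h3 : p.1 + p.2 = q.1 + q.2 := sub_right_injective hp.2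
      have h4 : p'.1 + p'.2 = q.1 + q.2 := sub_right_injective hp'.2
      have h5 : p.1 = p'.1 := hpp
      refine Prod.ext h5 ?_
      rw [h5, ← h4] at h3
      exact add_left_cancel h3
  obtain ⟨T1, hT1⟩ : ∃ T1 : Finset E, T1 = R.image fun a => ν - a := ⟨_, rfl⟩
  have hT1c : T1.card = R.card := by
    rw [hT1]
    exact Finset.card_image_of_injective _ sub_right_injective
  have hv1 : ∀ y ∈ T1, ⟪ν, y⟫ = ⟪ν, ν⟫ - 1 := by
    intro y hy
    rw [hT1, Finset.mem_image] at hy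
    obtain ⟨a, ha, rfl⟩ := hy
    rw [inner_sub_right, (mem_Rt.1 (hR ▸ ha : a ∈ Rt Ψ ν)).2]
  have hv2 : ∀ y ∈ T, ⟪ν, y⟫ = ⟪ν, ν⟫ - 2 := by
    intro y hy
    rw [hT, Finset.mem_image] at hy
    obtain ⟨q, hq, rfl⟩ := hy
    rw [hP, Finset.mem_filter, Finset.mem_product] at hq
    rw [inner_sub_right, inner_add_right, (mem_Rt.1 (hR ▸ hq.1.1 : q.1 ∈ Rt Ψ ν)).2,
      (mem_Rt.1 (hR ▸ hq.1.2 : q.2 ∈ Rt Ψ ν)).2]
    norm_num
  have hsub : insert ν (T1 ∪ T) ⊆ M := by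
    intro y hy
    rw [Finset.mem_insert, Finset.mem_union] at hy
    rcases hy with rfl | hy | hy
    · exact hν
    · rw [hT1, Finset.mem_image] at hy
      obtain ⟨a, ha, rfl⟩ := hy
      rw [hR] at ha
      exact N.refl ν hν a (mem_Rt.1 ha).1 (mem_Rt.1 ha).2
    · rw [hT, Finset.mem_image] at hy
      obtain ⟨q, hq, rfl⟩ := hy
      rw [hP, Finset.mem_filter, Finset.mem_product, hR] at hq
      have h5 := N.refl ν hν q.1 (mem_Rt.1 hq.1.1).1 (mem_Rt.1 hq.1.1).2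
      have h6 := N.refl _ h5 q.2 (mem_Rt.1 hq.1.2).1 (by
        rw [inner_sub_left, (mem_Rt.1 hq.1.2).2, hq.2, sub_zero])
      have h7 : ν - q.1 - q.2 = ν - (q.1 + q.2) := by abel
      rwa [h7] at h6
  have hcard := Finset.card_le_card hsub
  rw [Finset.card_insert_of_notMem, Finset.card_union_of_disjoint, hT1c] at hcard
  · rw [← hR, ← hPc]
    omega
  · refine Finset.disjoint_left.2 fun y h1 h2 => ?_
    have h3 := hv1 y h1
    have h4 := hv2 y h2
    linarith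
  · intro h1
    rcases Finset.mem_union.1 h1 with h2 | h2
    · have := hv1 ν h2
      linarith
    · have := hv2 ν h2
      linarith

open Classical in
/-- an orthogonal pair: `R` is large -/
theorem MnU.card_R {U : ℕ} (hU : ∀ a ∈ Rt Ψ ν, ((Rt Ψ ν).filter fun b => ⟪b, a⟫ = 1).card = U)
    (h14 : ∀ a ∈ Rt Ψ ν, ∀ a' ∈ Rt Ψ ν, ⟪a, a'⟫ = 0 → ((Rt Ψ ν).filter fun c => ⟪c, a + a'⟫ = 2).card ≤ 14)
    {a b : E} (ha : a ∈ Rt Ψ ν) (hb : b ∈ Rt Ψ ν) (hab : ⟪a, b⟫ = 0) :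
    U + 2 ≤ (Rt Ψ ν).card ∧ 2 * U ≤ (Rt Ψ ν).card + 10 := by
  have h1 := MnU.card_orth S N hν hb (hU b hb)
  have hne : a ≠ b := by
    rintro rfl
    rw [S.norm a (mem_Rt.1 ha).1] at hab
    norm_num at hab
  have ha0 : a ∈ (Rt Ψ ν).filter fun c => ⟪c, b⟫ = 0 := Finset.mem_filter.2 ⟨ha, hab⟩
  refine ⟨?_, ?_⟩
  · have := Finset.card_pos.2 ⟨a, ha0⟩
    omega
  · -- neighbours of `a`
    have h2 := hU a ha
    have h3 := Finset.card_filter_add_card_filter_not (s := (Rt Ψ ν).filter fun c => ⟪c, a⟫ = 1) (fun c => ⟪c, b⟫ = 1)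
    have h4 : (((Rt Ψ ν).filter fun c => ⟪c, a⟫ = 1).filter fun c => ⟪c, b⟫ = 1).card + 2 ≤ 14 := by
      refine le_trans ?_ (h14 a ha b hb hab)
      have h5 : insert a (insert b (((Rt Ψ ν).filter fun c => ⟪c, a⟫ = 1).filter fun c => ⟪c, b⟫ = 1)) ⊆
          (Rt Ψ ν).filter fun c => ⟪c, a + b⟫ = 2 := by
        intro c hc
        rw [Finset.mem_insert, Finset.mem_insert, Finset.mem_filter, Finset.mem_filter] at hc
        rw [Finset.mem_filter, inner_add_right]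
        rcases hc with rfl | rfl | ⟨⟨h6, h7⟩, h8⟩
        · exact ⟨ha, by rw [S.norm c (mem_Rt.1 ha).1, hab, add_zero]⟩
        · exact ⟨hb, by rw [S.norm c (mem_Rt.1 hb).1, real_inner_comm, hab, zero_add]⟩
        · exact ⟨h6, by rw [h7, h8]; norm_num⟩
      have h6 := Finset.card_le_card h5
      rw [Finset.card_insert_of_notMem, Finset.card_insert_of_notMem] at h6
      · exact h6
      · rw [Finset.mem_filter]
        intro h7
        rw [S.norm b (mem_Rt.1 hb).1] at h7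
        norm_num at h7
      · rw [Finset.mem_insert, Finset.mem_filter]
        rintro (h7 | h7)
        · exact hne h7
        · rw [hab] at h7
          norm_num at h7
    have h5 : (((Rt Ψ ν).filter fun c => ⟪c, a⟫ = 1).filter fun c => ¬⟪c, b⟫ = 1).card + 1 ≤
        ((Rt Ψ ν).filter fun c => ⟪c, b⟫ = 0).card := by
      have h6 : insert a (((Rt Ψ ν).filter fun c => ⟪c, a⟫ = 1).filter fun c => ¬⟪c, b⟫ = 1) ⊆
          (Rt Ψ ν).filter fun c => ⟪c, b⟫ = 0 := by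
        intro c hc
        rw [Finset.mem_insert, Finset.mem_filter, Finset.mem_filter] at hc
        rcases hc with rfl | ⟨⟨h7, h8⟩, h9⟩
        · exact ha0
        · refine Finset.mem_filter.2 ⟨h7, ?_⟩
          rcases MnU.rt_cases S N hν h7 hb with h10 | h10 | h10
          · rw [h10, real_inner_comm, hab] at h8
            norm_num at h8
          · exact absurd h10 h9
          · exact h10
      have h7 := Finset.card_le_card h6
      rw [Finset.card_insert_of_notMem] at h7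
      · exact h7
      · rw [Finset.mem_filter, Finset.mem_filter]
        intro h8
        have h9 := h8.1.2
        rw [S.norm a (mem_Rt.1 ha).1] at h9
        norm_num at h9
    omega

end

end AT
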