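import Pool.Agent.Helper3.AT.DichA
import Pool.Agent.Helper3.AT.Min
import Pool.Agent.Helper3.PF.Comb

/-!
Project AT (MP_b8862a_ag), block AT-P, first part: the symmetric case, the case of a simplex.
-/

set_option linter.unusedSectionVars false

open Module PF TF PW

namespace AT

variable {E : Type*} [NormedAddCommGroup E] [InnerProductSpace ℝ E] {Φ X : Finset E}

/-! ### scaling -/

section scale

variable {c : ℝ} (hc : 0 < c)

include hc

theorem closure_sc3 {z : E} (h : z ∈ AddSubgroup.closure (Φ : Set E)) :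
    c • z ∈ AddSubgroup.closure (PF.sc c Φ : Set E) := by
  induction h using AddSubgroup.closure_induction with
  | mem a ha => exact AddSubgroup.subset_closure ((smul_mem_sc hc).2 ha)
  | zero => rw [smul_zero]; exact AddSubgroup.zero_mem _
  | add a b _ _ iha ihb => rw [smul_add]; exact AddSubgroup.add_mem _ iha ihb
  | neg a _ iha => rw [smul_neg]; exact AddSubgroup.neg_mem _ iha

theorem span_sc3 {z : E} (h : z ∈ Submodule.span ℝ (Φ : Set E)) :
    c • z ∈ Submodule.span ℝ (PF.sc c Φ : Set E) := by
  induction h using Submodule.span_induction with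
  | mem a ha => exact Submodule.subset_span ((smul_mem_sc hc).2 ha)
  | zero => rw [smul_zero]; exact Submodule.zero_mem _
  | add a b _ _ iha ihb => rw [smul_add]; exact Submodule.add_mem _ iha ihb
  | smul r a _ iha => rw [smul_comm]; exact Submodule.smul_mem _ _ iha

theorem sat_sc3 (h : Sat' Φ X) : Sat' (PF.sc c Φ) (PF.sc c X) where
  nonempty := by
    obtain ⟨a, ha⟩ := h.nonempty
    exact ⟨c • a, (smul_mem_sc hc).2 ha⟩
  int := by
    intro a ha b hb
    obtain ⟨a', ha', rfl⟩ := mem_sc.1 ha
    obtain ⟨b', hb', rfl⟩ := mem_sc.1 hb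
    rw [co_sc hc]
    exact h.int a' ha' b' hb'
  str := by
    intro a ha b hb j hj
    obtain ⟨a', ha', rfl⟩ := mem_sc.1 ha
    obtain ⟨b', hb', rfl⟩ := mem_sc.1 hb
    rw [co_sc hc] at hj
    rw [smul_comm, ← smul_sub]
    exact (smul_mem_sc hc).2 (h.str a' ha' b' hb' j hj)
  coset := by
    intro x hx y hy
    obtain ⟨x', hx', rfl⟩ := mem_sc.1 hx
    obtain ⟨y', hy', rfl⟩ := mem_sc.1 hy
    rw [← smul_sub]
    exact closure_sc3 hc (h.coset x' hx' y' hy')
  span := by
    intro x hx
    obtain ⟨x', hx', rfl⟩ := mem_sc.1 hx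
    exact span_sc3 hc (h.span x' hx')

theorem typeS_of_sc3 (h : TypeS (PF.sc c Φ) (PF.sc c X)) : TypeS Φ X := by
  obtain ⟨m, u, k, hm, hk, h1, h2, h3⟩ := h
  refine ⟨m, fun i => c⁻¹ • u i, c⁻¹ * (c⁻¹ * k), hm, mul_pos (inv_pos.2 hc) (mul_pos (inv_pos.2 hc) hk), fun i j => ?_,
    fun y => ?_, fun y => ?_⟩
  · rw [inner_smul_left, inner_smul_right, h1]
    simp only [conj_trivial]
    ring
  · rw [← smul_mem_sc hc, h2]
    constructor
    · rintro ⟨i, j, hij, h⟩
      exact ⟨i, j, hij, by rw [(eq_inv_iff hc y _).1 h, smul_sub]⟩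
    · rintro ⟨i, j, hij, h⟩
      exact ⟨i, j, hij, by rw [(eq_inv_iff hc y _), h, smul_sub]⟩
  · rw [← smul_mem_sc hc, h3]
    simp only [eq_inv_iff hc]

end scale

/-! ### the case where the union with the opposite set is in one coset -/

section sym

open Classical in
/-- The union with the opposite set. -/
noncomputable def Un3 (X : Finset E) : Finset E := X ∪ X.image fun x => -x

theorem mem_Un3 {x : E} : x ∈ Un3 X ↔ x ∈ X ∨ -x ∈ X := by
  classical
  unfold Un3
  rw [Finset.mem_union, Finset.mem_image]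
  constructor
  · rintro (h | ⟨y, hy, rfl⟩)
    · exact Or.inl h
    · exact Or.inr (by rwa [neg_neg])
  · rintro (h | h)
    · exact Or.inl h
    · exact Or.inr ⟨-x, h, neg_neg x⟩

theorem card_Un3 : (Un3 X).card ≤ 2 * X.card := by
  classical
  unfold Un3
  refine (Finset.card_union_le _ _).trans ?_
  have := Finset.card_image_le (s := X) (f := fun x => -x)
  omega

theorem sat_Un3 (h : RS Φ) (hX : Sat' Φ X) {z : E} (hz : z ∈ X) (hz' : -z ∈ X) : Sat Φ (Un3 X) where
  nonempty := ⟨z, mem_Un3.2 (Or.inl hz)⟩
  int := by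
    intro a ha x hx
    rcases mem_Un3.1 hx with hx | hx
    · exact hX.int a ha x hx
    · obtain ⟨k, hk⟩ := hX.int a ha _ hx
      rw [co_neg_right] at hk
      exact ⟨-k, by push_cast; linarith⟩
  str := by
    intro a ha x hx j hj
    rcases mem_Un3.1 hx with hx | hx
    · exact mem_Un3.2 (Or.inl (hX.str a ha x hx j hj))
    · have h1 := hX.str (-a) (h.neg_mem ha) _ hx j (by rw [co_neg_left, co_neg_right, neg_neg]; exact hj)
      refine mem_Un3.2 (Or.inr ?_)
      rw [smul_neg] at h1
      have h2 : -(x - (j : ℝ) • a) = -x - -((j : ℝ) • a) := by abel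
      rwa [h2]
  neg := by
    intro x hx
    rcases mem_Un3.1 hx with hx | hx
    · exact mem_Un3.2 (Or.inr (by rwa [neg_neg]))
    · exact mem_Un3.2 (Or.inl hx)
  coset := by
    have h1 : ∀ x ∈ X, x - z ∈ AddSubgroup.closure (Φ : Set E) := fun x hx => hX.coset x hx z hz
    have h2 : ∀ x ∈ X, x + z ∈ AddSubgroup.closure (Φ : Set E) := fun x hx => by
      have := hX.coset x hx _ hz'
      rwa [sub_neg_eq_add] at this
    have h3 : ∀ x ∈ Un3 X, x - z ∈ AddSubgroup.closure (Φ : Set E) := by
      intro x hx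
      rcases mem_Un3.1 hx with hx | hx
      · exact h1 x hx
      · have := AddSubgroup.neg_mem _ (h2 _ hx)
        have h4 : -(-x + z) = x - z := by abel
        rwa [h4] at this
    intro x hx y hy
    have := AddSubgroup.sub_mem _ (h3 x hx) (h3 y hy)
    rwa [sub_sub_sub_cancel_right] at this

/-- **The symmetric coset.** -/
theorem case_sym3 (h : RS Φ) (hX : Sat' Φ X) (hns : ∃ x ∈ X, -x ∉ X) {z : E} (hz : z ∈ X) (hz' : -z ∈ X) {n p : ℕ}
    (hn : X.card ≤ n) (hp : 50 * n ≤ p ^ 2) {a x : E} (ha : a ∈ Φ) (hx : x ∈ X) (hb : (p : ℝ) ≤ co a x + qs Φ a) :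
    TypeA Φ := by
  obtain ⟨w, hw, hw'⟩ := hns
  have hw0 : w ≠ 0 := by
    rintro rfl
    rw [neg_zero] at hw'
    exact hw' hw
  have hp' : 25 * (Un3 X).card ≤ p ^ 2 := by
    have := card_Un3 (X := X)
    omega
  have hU := sat_Un3 h hX hz hz'
  have hwU : w ∈ Un3 X := mem_Un3.2 (Or.inl hw)
  rcases PF.comb h hU ⟨w, hwU, hw0⟩ hp' ha (mem_Un3.2 (Or.inl hx)) hb with h1 | h1 | h1
  · exact h1
  · exfalso
    obtain ⟨N, e, he, c, hc, h1, h2⟩ := h1
    have h3 : w ∈ Φ := by
      rw [h2]
      left
      exact ((h1 w).1 hwU).resolve_left hw0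
    have h4 := hX.str w h3 w hw 2 (by rw [h.co_self h3]; norm_num)
    apply hw'
    have h5 : w - ((2 : ℕ) : ℝ) • w = -w := by
      rw [Nat.cast_two, two_smul]
      abel
    rwa [h5] at h4
  · exfalso
    obtain ⟨N, e, he, c, hc, hN, h1, h2⟩ := h1
    have hcc : (0 : ℝ) < c * c := mul_pos hc hc
    have hin : ∀ i j, (inner ℝ (e i) (e j) : ℝ) = if i = j then 1 else 0 := by
      intro i j
      have := (orthonormal_iff_ite.1 he) i j
      exact this
    -- one step
    have step : ∀ (x b : E), x ∈ X → b ∈ Φ → (inner ℝ x b : ℝ) = c * c → (inner ℝ b b : ℝ) = 2 * (c * c) → x - b ∈ X := by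
      intro x b hx hb h3 h4
      have h5 := hX.str b hb x hx 1 (by
        unfold co
        rw [h3, h4, Nat.cast_one, div_self (by positivity)])
      rwa [Nat.cast_one, one_smul] at h5
    obtain ⟨i, hi⟩ := ((h1 w).1 hwU)
    obtain ⟨j, hij⟩ : ∃ j, i ≠ j := by
      by_contra hcon
      push Not at hcon
      have h3 : Fintype.card (Fin N) ≤ 1 := Fintype.card_le_one_iff.2 fun a b => by rw [← hcon a, ← hcon b]
      rw [Fintype.card_fin] at h3
      omega
    obtain ⟨a1, a2, a3⟩ := h2 i j hij
    obtain ⟨b1, b2, b3⟩ := h2 j i hij.symm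
    have hji := hij.symm
    rcases hi with rfl | rfl
    · have h3 := step _ _ hw a2 (by
        simp only [inner_smul_left, inner_smul_right, inner_sub_right, hin, conj_trivial, if_neg hij, if_true]
        ring) (by
        simp only [inner_smul_left, inner_smul_right, inner_sub_right, inner_sub_left, hin, conj_trivial, if_neg hij,
          if_neg hji, if_true]
        ring)
      have e1 : c • e i - c • (e i - e j) = c • e j := by rw [smul_sub]; abel
      rw [e1] at h3
      have h4 := step _ _ h3 a1 (by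
        simp only [inner_smul_left, inner_smul_right, inner_add_right, hin, conj_trivial, if_neg hji, if_true]
        ring) (by
        simp only [inner_smul_left, inner_smul_right, inner_add_right, inner_add_left, hin, conj_trivial, if_neg hij,
          if_neg hji, if_true]
        ring)
      have e2 : c • e j - c • (e i + e j) = -(c • e i) := by rw [smul_add]; abel
      rw [e2] at h4
      exact hw' h4
    · have h3 := step _ _ hw a3 (by
        simp only [inner_smul_left, inner_smul_right, inner_add_right, inner_neg_left, inner_neg_right, hin,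
          conj_trivial, if_neg hij, if_true]
        ring) (by
        simp only [inner_smul_left, inner_smul_right, inner_add_right, inner_add_left, inner_neg_left, inner_neg_right,
          hin, conj_trivial, if_neg hij, if_neg hji, if_true]
        ring)
      have e1 : -(c • e i) - -(c • (e i + e j)) = c • e j := by rw [smul_add]; abel
      rw [e1] at h3
      have h4 := step _ _ h3 b2 (by
        simp only [inner_smul_left, inner_smul_right, inner_sub_right, hin, conj_trivial, if_neg hji, if_true]
        ring) (by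
        simp only [inner_smul_left, inner_smul_right, inner_sub_right, inner_sub_left, hin, conj_trivial, if_neg hij,
          if_neg hji, if_true]
        ring)
      have e2 : c • e j - c • (e j - e i) = c • e i := by rw [smul_sub]; abel
      rw [e2] at h4
      rw [neg_neg] at hw'
      exact hw' h4

end sym

/-! ### the standard module -/

section std

variable {m : ℕ} {u : Fin m → E} {l : E}

/-- at most one box -/
theorem typeS_few3 (F : FrA Φ m u) (hm : 3 ≤ m) (hX : Sat' Φ X) (hl : l ∈ X) (hl0 : l ≠ 0)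
    (hmax : ∀ x ∈ X, (inner ℝ x x : ℝ) ≤ inner ℝ l l) {z : Fin m → ℤ} {s : ℝ}
    (hz : ∀ i, (inner ℝ l (u i) : ℝ) = z i + s) (hz2 : ∑ i, |z i| < 2) : TypeS Φ X := by
  have hlsp := hX.span _ hl
  have hm0 : (m : ℝ) ≠ 0 := by
    have : 0 < m := by omega
    exact_mod_cast this.ne'
  have hs : (∑ i, (z i : ℝ)) + m * s = 0 := by
    have h3 := F.sum_ax (by omega) l
    simp only [hz] at h3
    rw [Finset.sum_add_distrib, Finset.sum_const, Finset.card_univ, Fintype.card_fin, nsmul_eq_mul] at h3
    exact h3
  have hz1 : ∑ i, |z i| ≤ 1 := by omega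
  obtain ⟨j, hj⟩ : ∃ j, z j ≠ 0 := by
    by_contra hcon
    push Not at hcon
    apply hl0
    simp only [hcon, Int.cast_zero, Finset.sum_const_zero, zero_add] at hs hz
    have hs0 : s = 0 := (mul_eq_zero.1 hs).resolve_left hm0
    have : (inner ℝ l l : ℝ) = 0 := by
      rw [F.inner_eq hlsp]
      exact Finset.sum_eq_zero fun i _ => by rw [hz i, hs0]; norm_num
    exact inner_self_eq_zero.1 this
  have hrest : ∀ i, i ≠ j → z i = 0 := by
    intro i hi
    by_contra hcon
    have h3 : |z j| + |z i| ≤ ∑ i, |z i| := by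
      rw [← Finset.add_sum_erase _ _ (Finset.mem_univ j),
        ← Finset.add_sum_erase _ _ (Finset.mem_erase.2 ⟨hi, Finset.mem_univ i⟩)]
      have : 0 ≤ ∑ l ∈ (Finset.univ.erase j).erase i, |z l| := Finset.sum_nonneg fun _ _ => abs_nonneg _
      linarith
    have h4 := Int.one_le_abs hj
    have h5 := Int.one_le_abs hcon
    omega
  have hzj : z j = 1 ∨ z j = -1 := by
    have h3 : |z j| ≤ ∑ i, |z i| := Finset.single_le_sum (fun k _ => abs_nonneg (z k)) (Finset.mem_univ j)
    have h4 := Int.one_le_abs hj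
    have h5 : |z j| = 1 := by omega
    exact abs_eq (by norm_num) |>.1 h5
  have hsum : ∑ i, (z i : ℝ) = z j := by
    refine Finset.sum_eq_single j (fun i _ hi => by rw [hrest i hi, Int.cast_zero]) (fun h => ?_)
    exact absurd (Finset.mem_univ j) h
  rw [hsum] at hs
  rcases hzj with hzj | hzj
  · have hsv : s = -(1 / (m : ℝ)) := by
      rw [hzj] at hs
      push_cast at hs
      field_simp
      linarith
    refine typeS_of3 F (by omega) hX hl hmax (i := j) (F.eq_of hlsp (u_span3 F (by omega) j) fun i => ?_)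
    rw [hz i, hsv, F.gram]
    by_cases hij : j = i
    · rw [← hij, hzj, if_pos rfl]
      norm_num
      ring
    · rw [hrest i (Ne.symm hij), if_neg hij]
      norm_num
  · have hsv : s = 1 / (m : ℝ) := by
      rw [hzj] at hs
      push_cast at hs
      field_simp
      linarith
    have F' := frA_neg3 F
    refine typeS_of3 F' (by omega) hX hl hmax (i := j) (F.eq_of hlsp (u_span3 F' (by omega) j) fun i => ?_)
    rw [hz i, hsv, inner_neg_left, F.gram]
    by_cases hij : j = i
    · rw [← hij, hzj, if_pos rfl]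
      norm_num
      ring
    · rw [hrest i (Ne.symm hij), if_neg hij]
      norm_num

/-- all weights are minuscule -/
theorem typeS_min3 (F : FrA Φ m u) (hm : 3 ≤ m) (hX : Sat' Φ X) {o : Fin m} (ho : u o ∈ X)
    (hmin : ∀ x ∈ X, ∀ d ∈ Φ, (inner ℝ x d : ℝ) < 2) : TypeS Φ X := by
  have hm0 : (m : ℝ) ≠ 0 := by
    have : 0 < m := by omega
    exact_mod_cast this.ne'
  have hmem : ∀ j, u j ∈ X := by
    intro j
    by_cases hj : o = j
    · rw [← hj]; exact ho
    · have h1 := step3 F hX.str ho hj (by
        rw [F.gram, F.gram, if_pos rfl, if_neg hj]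
        linarith)
      have h2 : u o - (u o - u j) = u j := by abel
      rwa [h2] at h1
  refine ⟨m, u, 1, hm, one_pos, fun i j => by rw [F.gram, one_mul], F.mem, fun y => ⟨fun hy => ?_, ?_⟩⟩
  · have h1 := hX.coset y hy _ ho
    choose k hk using fun j => F.int_closure h1 j
    have h2 : ∀ j, (inner ℝ y (u j) : ℝ) = (k j + (if o = j then 1 else 0) : ℤ) - 1 / (m : ℝ) := by
      intro j
      have h3 := hk j
      rw [inner_sub_left, F.gram] at h3
      push_cast
      linarith
    obtain ⟨a, ha⟩ : ∃ a : Fin m → ℤ, ∀ j, a j = k j + (if o = j then 1 else 0) := ⟨_, fun _ => rfl⟩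
    simp only [← ha] at h2
    have hsum : ∑ j, (a j : ℝ) = 1 := by
      have h3 := F.sum_ax (by omega) y
      simp only [h2] at h3
      rw [Finset.sum_sub_distrib, Finset.sum_const, Finset.card_univ, Fintype.card_fin, nsmul_eq_mul,
        mul_one_div_cancel hm0] at h3
      linarith
    have hsum' : ∑ j, a j = 1 := by exact_mod_cast hsum
    have hdiff : ∀ i j, a i ≤ a j + 1 := by
      intro i j
      by_cases hij : i = j
      · rw [hij]; omega
      · have h3 := hmin y hy _ (F.mem' hij)
        rw [inner_sub_right, h2, h2] at h3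
        have h4 : (a i : ℝ) < a j + 2 := by linarith
        have h5 : a i < a j + 2 := by exact_mod_cast h4
        omega
    obtain ⟨j, hj⟩ : ∃ j, 1 ≤ a j := by
      by_contra hcon
      push Not at hcon
      have h3 : ∑ j, a j ≤ ∑ j : Fin m, 0 := Finset.sum_le_sum fun j _ => by
        have := hcon j
        omega
      rw [Finset.sum_const_zero] at h3
      omega
    have hnn : ∀ i, 0 ≤ a i := fun i => by
      have := hdiff j i
      omega
    have hsp : a j + ∑ i ∈ Finset.univ.erase j, a i = 1 := by
      rw [Finset.add_sum_erase _ _ (Finset.mem_univ j)]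
      exact hsum'
    have hs0 : 0 ≤ ∑ i ∈ Finset.univ.erase j, a i := Finset.sum_nonneg fun i _ => hnn i
    have haj : a j = 1 := by omega
    have hrest : ∀ i, i ≠ j → a i = 0 := by
      have h3 : ∑ i ∈ Finset.univ.erase j, a i = 0 := by omega
      have h4 := (Finset.sum_eq_zero_iff_of_nonneg fun i _ => hnn i).1 h3
      exact fun i hi => h4 i (Finset.mem_erase.2 ⟨hi, Finset.mem_univ i⟩)
    refine ⟨j, F.eq_of (hX.span _ hy) (u_span3 F (by omega) j) fun i => ?_⟩
    rw [h2 i, F.gram]
    by_cases hij : j = i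
    · rw [← hij, haj, if_pos rfl]
      norm_num
    · rw [hrest i (Ne.symm hij), if_neg hij]
      norm_num
  · rintro ⟨j, rfl⟩
    exact hmem j

end std

end AT
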